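import Pool.Agent.Lib.MP_1be6c9_co.M3.Defs

/-!
The combinatorial part: the only possible surface is the six-vertex projective plane.
-/

namespace Pool.Agent.Lib.MP_1be6c9_co.M3

/-- The combinatorial properties of the set of vertices. -/
structure TS {κ : Type*} (Tri : SL κ → SL κ → SL κ → Prop) : Prop where
  sym12 : ∀ {a b c}, Tri a b c → Tri b a c
  sym23 : ∀ {a b c}, Tri a b c → Tri a c b
  neg : ∀ {a b c}, Tri a b c → Tri (ng a) (ng b) (ng c)
  lab : ∀ {a b c}, Tri a b c → a.1 ≠ b.1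
  ex : ∀ {p q a}, Tri p q a → ∃ a', a' ≠ a ∧ Tri p q a'
  uniq : ∀ {p q a b c}, Tri p q a → Tri p q b → Tri p q c → a ≠ b → c = a ∨ c = b
  noflip : ∀ {p q a}, Tri p q a → ¬ Tri p q (ng a)
  noanti : ∀ {p q a}, Tri p q a → ¬ Tri p (ng q) (ng a)
  priv : ∀ (A B C : Fin 4 → SL κ), (∀ i, Tri (A i) (B i) (C i)) →
    (∀ i j, i ≠ j → (A i).1 ≠ (A j).1 ∧ (A i).1 ≠ (B j).1 ∧ (A i).1 ≠ (C j).1) → False
  conn : ∀ (S : SL κ → SL κ → SL κ → Prop), (∀ a b c, S a b c → S b a c) →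
    (∀ a b c, S a b c → S a c b) →
    (∀ a b c c', S a b c → Tri a b c → Tri a b c' → S a b c') →
    ∀ {a b c}, Tri a b c → S a b c → ∀ {a' b' c'}, Tri a' b' c' → S a' b' c'

/-- The icosahedral configuration. -/
def Ico {κ : Type*} (Tri : SL κ → SL κ → SL κ → Prop) (p q₁ q₂ q₃ q₄ q₅ : SL κ) : Prop :=
  (p.1 ≠ q₁.1 ∧ p.1 ≠ q₂.1 ∧ p.1 ≠ q₃.1 ∧ p.1 ≠ q₄.1 ∧ p.1 ≠ q₅.1) ∧
  (q₁.1 ≠ q₂.1 ∧ q₁.1 ≠ q₃.1 ∧ q₁.1 ≠ q₄.1 ∧ q₁.1 ≠ q₅.1) ∧
  (q₂.1 ≠ q₃.1 ∧ q₂.1 ≠ q₄.1 ∧ q₂.1 ≠ q₅.1) ∧ (q₃.1 ≠ q₄.1 ∧ q₃.1 ≠ q₅.1) ∧ q₄.1 ≠ q₅.1 ∧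
  (Tri p q₁ q₂ ∧ Tri p q₂ q₃ ∧ Tri p q₃ q₄ ∧ Tri p q₄ q₅ ∧ Tri p q₅ q₁) ∧
  (Tri q₁ q₂ (ng q₄) ∧ Tri q₂ q₃ (ng q₅) ∧ Tri q₃ q₄ (ng q₁) ∧ Tri q₄ q₅ (ng q₂) ∧
    Tri q₅ q₁ (ng q₃))

section

variable {κ : Type*} {Tri : SL κ → SL κ → SL κ → Prop}

theorem TS.rot (h : TS Tri) {a b c : SL κ} (t : Tri a b c) : Tri b c a := h.sym23 (h.sym12 t)
theorem TS.rot' (h : TS Tri) {a b c : SL κ} (t : Tri a b c) : Tri c a b := h.rot (h.rot t)
theorem TS.s13 (h : TS Tri) {a b c : SL κ} (t : Tri a b c) : Tri c b a := h.sym12 (h.rot t)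
theorem TS.lab13 (h : TS Tri) {a b c : SL κ} (t : Tri a b c) : a.1 ≠ c.1 := h.lab (h.sym23 t)
theorem TS.lab23 (h : TS Tri) {a b c : SL κ} (t : Tri a b c) : b.1 ≠ c.1 := h.lab (h.rot t)

/-- private labels, unbundled -/
theorem TS.pr4 (h : TS Tri) {a₁ b₁ c₁ a₂ b₂ c₂ a₃ b₃ c₃ a₄ b₄ c₄ : SL κ}
    (t₁ : Tri a₁ b₁ c₁) (t₂ : Tri a₂ b₂ c₂) (t₃ : Tri a₃ b₃ c₃) (t₄ : Tri a₄ b₄ c₄)
    (h1 : a₁.1 ≠ a₂.1 ∧ a₁.1 ≠ b₂.1 ∧ a₁.1 ≠ c₂.1 ∧ a₁.1 ≠ a₃.1 ∧ a₁.1 ≠ b₃.1 ∧ a₁.1 ≠ c₃.1 ∧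
      a₁.1 ≠ a₄.1 ∧ a₁.1 ≠ b₄.1 ∧ a₁.1 ≠ c₄.1)
    (h2 : a₂.1 ≠ a₁.1 ∧ a₂.1 ≠ b₁.1 ∧ a₂.1 ≠ c₁.1 ∧ a₂.1 ≠ a₃.1 ∧ a₂.1 ≠ b₃.1 ∧ a₂.1 ≠ c₃.1 ∧
      a₂.1 ≠ a₄.1 ∧ a₂.1 ≠ b₄.1 ∧ a₂.1 ≠ c₄.1)
    (h3 : a₃.1 ≠ a₁.1 ∧ a₃.1 ≠ b₁.1 ∧ a₃.1 ≠ c₁.1 ∧ a₃.1 ≠ a₂.1 ∧ a₃.1 ≠ b₂.1 ∧ a₃.1 ≠ c₂.1 ∧
      a₃.1 ≠ a₄.1 ∧ a₃.1 ≠ b₄.1 ∧ a₃.1 ≠ c₄.1)
    (h4 : a₄.1 ≠ a₁.1 ∧ a₄.1 ≠ b₁.1 ∧ a₄.1 ≠ c₁.1 ∧ a₄.1 ≠ a₂.1 ∧ a₄.1 ≠ b₂.1 ∧ a₄.1 ≠ c₂.1 ∧
      a₄.1 ≠ a₃.1 ∧ a₄.1 ≠ b₃.1 ∧ a₄.1 ≠ c₃.1) : False := by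
  refine h.priv ![a₁, a₂, a₃, a₄] ![b₁, b₂, b₃, b₄] ![c₁, c₂, c₃, c₄] ?_ ?_
  · intro i; fin_cases i
    · exact t₁
    · exact t₂
    · exact t₃
    · exact t₄
  · obtain ⟨h1a, h1b, h1c, h1d, h1e, h1f, h1g, h1h, h1i⟩ := h1
    obtain ⟨h2a, h2b, h2c, h2d, h2e, h2f, h2g, h2h, h2i⟩ := h2
    obtain ⟨h3a, h3b, h3c, h3d, h3e, h3f, h3g, h3h, h3i⟩ := h3
    obtain ⟨h4a, h4b, h4c, h4d, h4e, h4f, h4g, h4h, h4i⟩ := h4
    intro i j hij
    fin_cases i <;> fin_cases j <;> first | exact absurd rfl hij | exact ⟨by assumption, by assumption, by assumption⟩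

/-- every pair has at most one relative sign -/
theorem TS.AP (h : TS Tri) {p q a c : SL κ} (t : Tri p q a) (u : Tri p (ng q) c) : False := by
  obtain ⟨a', ha', t'⟩ := h.ex t
  obtain ⟨c', hc', u'⟩ := h.ex u
  have h1 : a.1 ≠ a'.1 := by
    intro e
    rcases eq_or_ng e with e | e
    · exact ha' e.symm
    · rw [e] at t; exact h.noflip t' t
  have h2 : c.1 ≠ c'.1 := by
    intro e
    rcases eq_or_ng e with e | e
    · exact hc' e.symm
    · rw [e] at u; exact h.noflip u' u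
  have key : ∀ {a c : SL κ}, Tri p q a → Tri p (ng q) c → a.1 ≠ c.1 := by
    intro a c t u e
    rcases eq_or_ng e with e | e
    · rw [← e] at u
      exact h.noflip (h.sym23 t) (h.sym23 u)
    · rw [e] at t
      have := h.noanti t
      rw [ng_ng] at this
      exact this u
  have l1 := h.lab13 t
  have l2 := h.lab23 t
  have l3 := h.lab13 t'
  have l4 := h.lab23 t'
  have l5 := h.lab13 u
  have l6 := h.lab23 u
  have l7 := h.lab13 u'
  have l8 := h.lab23 u'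
  simp only [ng_fst] at l6 l8
  have k1 := key t u
  have k2 := key t u'
  have k3 := key t' u
  have k4 := key t' u'
  exact h.pr4 (h.rot' t) (h.rot' t') (h.rot' u) (h.rot' u')
    ⟨h1, l1.symm, l2.symm, k1, l1.symm, l2.symm, k2, l1.symm, l2.symm⟩
    ⟨h1.symm, l3.symm, l4.symm, k3, l3.symm, l4.symm, k4, l3.symm, l4.symm⟩
    ⟨k1.symm, l5.symm, l6.symm, k3.symm, l5.symm, l6.symm, h2, l5.symm, l6.symm⟩
    ⟨k2.symm, l7.symm, l8.symm, k4.symm, l7.symm, l8.symm, h2.symm, l7.symm, l8.symm⟩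

theorem TS.AP' (h : TS Tri) {p q r a b : SL κ} (t : Tri p q a) (u : Tri p r b)
    (e : q.1 = r.1) : q = r := by
  rcases eq_or_ng e with e | e
  · exact e
  · exfalso
    rw [e] at t
    exact h.AP u t

/-- different labels in a link -/
theorem TS.APn (h : TS Tri) {p q r a b : SL κ} (t : Tri p q a) (u : Tri p r b)
    (e : q ≠ r) : q.1 ≠ r.1 := fun he => e (h.AP' t u he)

theorem TS.link_conn (h : TS Tri) {p : SL κ} (C : SL κ → Prop)
    (hC : ∀ x y, C x → Tri p x y → C y) {a b c : SL κ} (Ca : C a) (hab : Tri p a b)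
    (hbc : Tri p b c) (hac : a ≠ c) : ∀ r s, Tri p r s → C r := by
  intro r s hrs
  by_contra hr
  have hs : ¬ C s := fun hs => hr (hC _ _ hs (h.sym23 hrs))
  obtain ⟨t, htr, hst⟩ := h.ex (h.sym23 hrs)
  have ht : ¬ C t := fun ht => hs (hC _ _ ht (h.sym23 hst))
  have Cb : C b := hC _ _ Ca hab
  have Cc : C c := hC _ _ Cb hbc
  have hra : r ≠ a := fun e => hr (e ▸ Ca)
  have hrb : r ≠ b := fun e => hr (e ▸ Cb)
  have hrc : r ≠ c := fun e => hr (e ▸ Cc)
  have hsa : s ≠ a := fun e => hs (e ▸ Ca)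
  have hsc : s ≠ c := fun e => hs (e ▸ Cc)
  have hta : t ≠ a := fun e => ht (e ▸ Ca)
  have htb : t ≠ b := fun e => ht (e ▸ Cb)
  have htc : t ≠ c := fun e => ht (e ▸ Cc)
  have tr := hrs
  have ts := h.sym23 hrs
  have tt := h.sym23 hst
  have tc := h.sym23 hbc
  exact h.pr4 (h.sym12 hrs) (h.sym12 tt) (h.sym12 hab) (h.sym12 tc)
    ⟨h.APn tr tt (Ne.symm htr), (h.lab tr).symm, h.lab23 tr, h.APn tr hab hra, (h.lab tr).symm,
      h.APn tr hbc hrb, h.APn tr tc hrc, (h.lab tr).symm, h.APn tr hbc hrb⟩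
    ⟨h.APn tt tr htr, (h.lab tr).symm.symm.symm.symm |> fun _ => (h.lab tt).symm, h.lab23 tt,
      h.APn tt hab hta, (h.lab tt).symm, h.APn tt hbc htb, h.APn tt tc htc, (h.lab tt).symm,
      h.APn tt hbc htb⟩
    ⟨h.APn hab tr (Ne.symm hra), (h.lab hab).symm, h.APn hab ts (Ne.symm hsa),
      h.APn hab tt (Ne.symm hta), (h.lab hab).symm, h.APn hab ts (Ne.symm hsa),
      h.APn hab tc hac, (h.lab hab).symm, h.lab23 hab⟩
    ⟨h.APn tc tr (Ne.symm hrc), (h.lab tc).symm, h.APn tc ts (Ne.symm hsc),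
      h.APn tc tt (Ne.symm htc), (h.lab tc).symm, h.APn tc ts (Ne.symm hsc),
      h.APn tc hab (Ne.symm hac), (h.lab tc).symm, h.lab23 tc⟩

theorem TS.cyc3 (h : TS Tri) {p a b c : SL κ} (t1 : Tri p a b) (t2 : Tri p b c)
    (t3 : Tri p c a) : ∀ r s, Tri p r s → r = a ∨ r = b ∨ r = c := by
  have hab : a ≠ b := fun e => h.lab23 t1 (e ▸ rfl)
  have hbc : b ≠ c := fun e => h.lab23 t2 (e ▸ rfl)
  have hca : c ≠ a := fun e => h.lab23 t3 (e ▸ rfl)
  refine h.link_conn (fun r => r = a ∨ r = b ∨ r = c) ?_ (Or.inl rfl) t1 t2 hca.symm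
  rintro x y (rfl | rfl | rfl) hy
  · rcases h.uniq t1 (h.sym23 t3) hy hbc with e | e <;> simp [e]
  · rcases h.uniq t2 (h.sym23 t1) hy hca with e | e <;> simp [e]
  · rcases h.uniq t3 (h.sym23 t2) hy hab with e | e <;> simp [e]

theorem TS.cyc4 (h : TS Tri) {p a b c d : SL κ} (t1 : Tri p a b) (t2 : Tri p b c)
    (t3 : Tri p c d) (t4 : Tri p d a) (hac : a ≠ c) (hbd : b ≠ d) :
    ∀ r s, Tri p r s → r = a ∨ r = b ∨ r = c ∨ r = d := by
  refine h.link_conn (fun r => r = a ∨ r = b ∨ r = c ∨ r = d) ?_ (Or.inl rfl) t1 t2 hac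
  rintro x y (rfl | rfl | rfl | rfl) hy
  · rcases h.uniq t1 (h.sym23 t4) hy hbd with e | e <;> simp [e]
  · rcases h.uniq t2 (h.sym23 t1) hy hac.symm with e | e <;> simp [e]
  · rcases h.uniq t3 (h.sym23 t2) hy hbd.symm with e | e <;> simp [e]
  · rcases h.uniq t4 (h.sym23 t3) hy hac with e | e <;> simp [e]

/-- a link which is a pentagon -/
structure Cy5 (Tri : SL κ → SL κ → SL κ → Prop) (p a b c d e : SL κ) : Prop where
  t1 : Tri p a b
  t2 : Tri p b c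
  t3 : Tri p c d
  t4 : Tri p d e
  t5 : Tri p e a
  hac : a ≠ c
  hbd : b ≠ d
  hce : c ≠ e
  hda : d ≠ a
  heb : e ≠ b

theorem Cy5.rot {p a b c d e : SL κ} (H : Cy5 Tri p a b c d e) : Cy5 Tri p b c d e a :=
  ⟨H.t2, H.t3, H.t4, H.t5, H.t1, H.hbd, H.hce, H.hda, H.heb, H.hac⟩

theorem Cy5.refl (h : TS Tri) {p a b c d e : SL κ} (H : Cy5 Tri p a b c d e) :
    Cy5 Tri p b a e d c :=
  ⟨h.sym23 H.t1, h.sym23 H.t5, h.sym23 H.t4, h.sym23 H.t3, h.sym23 H.t2, H.heb.symm, H.hda.symm,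
    H.hce.symm, H.hbd.symm, H.hac.symm⟩

theorem Cy5.link (h : TS Tri) {p a b c d e : SL κ} (H : Cy5 Tri p a b c d e) :
    ∀ r s, Tri p r s → r = a ∨ r = b ∨ r = c ∨ r = d ∨ r = e := by
  refine h.link_conn (fun r => r = a ∨ r = b ∨ r = c ∨ r = d ∨ r = e) ?_ (Or.inl rfl) H.t1 H.t2
    H.hac
  rintro x y (rfl | rfl | rfl | rfl | rfl) hy
  · rcases h.uniq H.t1 (h.sym23 H.t5) hy H.heb.symm with e | e <;> simp [e]
  · rcases h.uniq H.t2 (h.sym23 H.t1) hy H.hac.symm with e | e <;> simp [e]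
  · rcases h.uniq H.t3 (h.sym23 H.t2) hy H.hbd.symm with e | e <;> simp [e]
  · rcases h.uniq H.t4 (h.sym23 H.t3) hy H.hce.symm with e | e <;> simp [e]
  · rcases h.uniq H.t5 (h.sym23 H.t4) hy H.hda.symm with e | e <;> simp [e]

/-- labels of a pentagonal star are distinct -/
theorem Cy5.labs (h : TS Tri) {p a b c d e : SL κ} (H : Cy5 Tri p a b c d e) :
    (p.1 ≠ a.1 ∧ p.1 ≠ b.1 ∧ p.1 ≠ c.1 ∧ p.1 ≠ d.1 ∧ p.1 ≠ e.1) ∧
    (a.1 ≠ b.1 ∧ a.1 ≠ c.1 ∧ a.1 ≠ d.1 ∧ a.1 ≠ e.1) ∧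
    (b.1 ≠ c.1 ∧ b.1 ≠ d.1 ∧ b.1 ≠ e.1) ∧ (c.1 ≠ d.1 ∧ c.1 ≠ e.1) ∧ d.1 ≠ e.1 :=
  ⟨⟨h.lab H.t1, h.lab H.t2, h.lab H.t3, h.lab H.t4, h.lab H.t5⟩,
    ⟨h.lab23 H.t1, h.APn H.t1 H.t3 H.hac, h.APn H.t1 H.t4 H.hda.symm, (h.lab23 H.t5).symm⟩,
    ⟨h.lab23 H.t2, h.APn H.t2 H.t4 H.hbd, h.APn H.t2 H.t5 H.heb.symm⟩,
    ⟨h.lab23 H.t3, h.APn H.t3 H.t5 H.hce⟩, h.lab23 H.t4⟩

/-- continuing a path of length three in a link -/
theorem TS.path4 (h : TS Tri) {p a b c d : SL κ} (t1 : Tri p a b) (t2 : Tri p b c)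
    (t3 : Tri p c d) (hac : a ≠ c) (hbd : b ≠ d) (had : a ≠ d) :
    Tri p d a ∨ ∃ e, Cy5 Tri p a b c d e := by
  by_contra hcon
  push Not at hcon
  obtain ⟨hda, h5⟩ := hcon
  obtain ⟨e, hec, t4⟩ := h.ex (h.sym23 t3)
  have hea : e ≠ a := fun e' => hda (e' ▸ t4)
  have heb : e ≠ b := by
    rintro rfl
    rcases h.uniq (h.sym23 t1) t2 (h.sym23 t4) hac with e | e
    · exact had e.symm
    · exact h.lab23 t3 (by rw [e])
  obtain ⟨f, hfd, t5⟩ := h.ex (h.sym23 t4)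
  have hfa : f ≠ a := by
    rintro rfl
    exact h5 e ⟨t1, t2, t3, t4, t5, hac, hbd, hec.symm, had.symm, heb⟩
  have hfb : f ≠ b := by
    rintro rfl
    rcases h.uniq (h.sym23 t1) t2 (h.sym23 t5) hac with e' | e'
    · exact hea e'
    · exact hec e'
  have hfc : f ≠ c := by
    rintro rfl
    rcases h.uniq (h.sym23 t2) t3 (h.sym23 t5) hbd with e' | e'
    · exact heb e'
    · exact h.lab23 t4 (by rw [e'])
  have tf := h.sym23 t5
  have tc := h.sym23 t2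
  have td := t4
  exact h.pr4 (h.sym12 t1) (h.sym12 tc) (h.sym12 t4) (h.sym12 tf)
    ⟨h.APn t1 t3 hac, (h.lab t1).symm, h.lab23 t1, h.APn t1 t4 had, (h.lab t1).symm,
      h.APn t1 t5 hea.symm, h.APn t1 tf hfa.symm, (h.lab t1).symm, h.APn t1 t5 hea.symm⟩
    ⟨h.APn t3 t1 hac.symm, (h.lab t3).symm, h.lab23 tc, h.lab23 t3, (h.lab t3).symm,
      h.APn t3 t5 hec.symm, h.APn t3 tf hfc.symm, (h.lab t3).symm, h.APn t3 t5 hec.symm⟩
    ⟨h.APn t4 t1 had.symm, (h.lab t4).symm, h.APn t4 t2 hbd.symm, (h.lab23 t3).symm,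
      (h.lab t4).symm, h.APn t4 t2 hbd.symm, h.APn t4 tf hfd.symm, (h.lab t4).symm, h.lab23 t4⟩
    ⟨h.APn tf t1 hfa, (h.lab tf).symm, h.APn tf t2 hfb, h.APn tf t3 hfc, (h.lab tf).symm,
      h.APn tf t2 hfb, h.APn tf t4 hfd, (h.lab tf).symm, h.lab23 tf⟩

/-- a set of signed labels closed under links and injective on labels is impossible -/
theorem TS.closed (h : TS Tri) (C : SL κ → Prop) (hC : ∀ x r s, C x → Tri x r s → C r)
    {x r s : SL κ} (hx : C x) (ht : Tri x r s) (hpm : ∀ y z, C y → C z → y.1 = z.1 → y = z) :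
    False := by
  have hr : C r := hC _ _ _ hx ht
  have hs : C s := hC _ _ _ hx (h.sym23 ht)
  have := h.conn (fun a b c => C a ∧ C b ∧ C c) (fun a b c ⟨ha, hb, hc⟩ => ⟨hb, ha, hc⟩)
    (fun a b c ⟨ha, hb, hc⟩ => ⟨ha, hc, hb⟩)
    (fun a b c c' ⟨ha, hb, _⟩ _ t' => ⟨ha, hb, hC _ _ _ ha (h.sym23 t')⟩) ht ⟨hx, hr, hs⟩
    (h.neg ht)
  exact ng_ne x (hpm _ _ this.1 hx rfl)


/-! ### All links short -/

theorem TS.no3 (h : TS Tri)
    (n4 : ∀ p a b c d, ¬ (Tri p a b ∧ Tri p b c ∧ Tri p c d ∧ Tri p d a ∧ a ≠ c ∧ b ≠ d))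
    (n5 : ∀ p a b c d e, ¬ Cy5 Tri p a b c d e) {p a b : SL κ} (t : Tri p a b) : False := by
  have key : ∀ {p a b c : SL κ}, Tri p a b → Tri p b c → a ≠ c → Tri p c a := by
    intro p a b c t1 t2 hac
    by_contra hca
    obtain ⟨d, hdb, t3⟩ := h.ex (h.sym23 t2)
    have hda : d ≠ a := fun e => hca (e ▸ t3)
    rcases h.path4 t1 t2 t3 hac hdb.symm hda.symm with t4 | ⟨e, h5⟩
    · exact n4 _ _ _ _ _ ⟨t1, t2, t3, t4, hac, hdb.symm⟩
    · exact n5 _ _ _ _ _ _ h5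
  obtain ⟨c, hca, t2⟩ := h.ex (h.sym23 t)
  have t3 := key t t2 hca.symm
  have hab : a.1 ≠ b.1 := h.lab23 t
  have hbc : b.1 ≠ c.1 := h.lab23 t2
  have hca' : c.1 ≠ a.1 := h.lab23 t3
  have hpa := h.lab t
  have hpb := h.lab t2
  have hpc := h.lab t3
  -- link of `a` : b - p - c
  have u : Tri a c b := key (show Tri a b p by first | exact t | exact TS.sym12 h t | exact TS.sym23 h t | exact TS.rot h t | exact TS.rot' h t | exact TS.s13 h t) (show Tri a p c by first | exact t3 | exact TS.sym12 h t3 | exact TS.sym23 h t3 | exact TS.rot h t3 | exact TS.rot' h t3 | exact TS.s13 h t3)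
    (fun e => hbc (by rw [e]))
  refine h.closed (fun x => x = p ∨ x = a ∨ x = b ∨ x = c) ?_ (Or.inl rfl) t ?_
  · rintro x r s (rfl | rfl | rfl | rfl) hr
    · rcases h.cyc3 t t2 t3 r s hr with e | e | e <;> simp [e]
    · rcases h.cyc3 (show Tri x p b by first | exact t | exact TS.sym12 h t | exact TS.sym23 h t | exact TS.rot h t | exact TS.rot' h t | exact TS.s13 h t) (show Tri x b c by first | exact u | exact TS.sym12 h u | exact TS.sym23 h u | exact TS.rot h u | exact TS.rot' h u | exact TS.s13 h u)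
        (show Tri x c p by first | exact t3 | exact TS.sym12 h t3 | exact TS.sym23 h t3 | exact TS.rot h t3 | exact TS.rot' h t3 | exact TS.s13 h t3) r s hr with e | e | e <;> simp [e]
    · rcases h.cyc3 (show Tri x p a by first | exact t | exact TS.sym12 h t | exact TS.sym23 h t | exact TS.rot h t | exact TS.rot' h t | exact TS.s13 h t) (show Tri x a c by first | exact u | exact TS.sym12 h u | exact TS.sym23 h u | exact TS.rot h u | exact TS.rot' h u | exact TS.s13 h u)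
        (show Tri x c p by first | exact t2 | exact TS.sym12 h t2 | exact TS.sym23 h t2 | exact TS.rot h t2 | exact TS.rot' h t2 | exact TS.s13 h t2) r s hr with e | e | e <;> simp [e]
    · rcases h.cyc3 (show Tri x p a by first | exact t3 | exact TS.sym12 h t3 | exact TS.sym23 h t3 | exact TS.rot h t3 | exact TS.rot' h t3 | exact TS.s13 h t3) (show Tri x a b by first | exact u | exact TS.sym12 h u | exact TS.sym23 h u | exact TS.rot h u | exact TS.rot' h u | exact TS.s13 h u)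
        (show Tri x b p by first | exact t2 | exact TS.sym12 h t2 | exact TS.sym23 h t2 | exact TS.rot h t2 | exact TS.rot' h t2 | exact TS.s13 h t2) r s hr with e | e | e <;> simp [e]
  · rintro y z (rfl | rfl | rfl | rfl) (rfl | rfl | rfl | rfl) e <;>
      first | rfl | exact absurd e ‹_› | exact absurd e.symm ‹_›

/-- bipyramid -/
theorem TS.no4a (h : TS Tri) (n5 : ∀ p a b c d e, ¬ Cy5 Tri p a b c d e) {p a b c d : SL κ}
    (t1 : Tri p a b) (t2 : Tri p b c) (t3 : Tri p c d) (t4 : Tri p d a) (hac : a ≠ c) (hbd : b ≠ d)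
    (u : Tri a b c) : False := by
  have lac := h.APn t1 t3 hac
  have lbd := h.APn t2 t4 hbd
  have lab := h.lab23 t1
  have lbc := h.lab23 t2
  have lcd := h.lab23 t3
  have lda := h.lab23 t4
  have lpa := h.lab t1
  have lpb := h.lab t2
  have lpc := h.lab t3
  have lpd := h.lab t4
  -- link of `a` : d - p - b - c
  have w : Tri a c d := by
    rcases h.path4 (show Tri a d p by first | exact t4 | exact TS.sym12 h t4 | exact TS.sym23 h t4 | exact TS.rot h t4 | exact TS.rot' h t4 | exact TS.s13 h t4) (show Tri a p b by first | exact t1 | exact TS.sym12 h t1 | exact TS.sym23 h t1 | exact TS.rot h t1 | exact TS.rot' h t1 | exact TS.s13 h t1) u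
      hbd.symm (fun e => lpc (by rw [e])) (fun e => lcd (by rw [e])) with w | ⟨e, h5⟩
    · exact w
    · exact absurd h5 (n5 _ _ _ _ _ _)
  refine h.closed (fun x => x = p ∨ x = a ∨ x = b ∨ x = c ∨ x = d) ?_ (Or.inl rfl) t1 ?_
  · rintro x r s (rfl | rfl | rfl | rfl | rfl) hr
    · rcases h.cyc4 t1 t2 t3 t4 hac hbd r s hr with e | e | e | e <;> simp [e]
    · rcases h.cyc4 (show Tri x d p by first | exact t4 | exact TS.sym12 h t4 | exact TS.sym23 h t4 | exact TS.rot h t4 | exact TS.rot' h t4 | exact TS.s13 h t4) (show Tri x p b by first | exact t1 | exact TS.sym12 h t1 | exact TS.sym23 h t1 | exact TS.rot h t1 | exact TS.rot' h t1 | exact TS.s13 h t1)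
        (show Tri x b c by first | exact u | exact TS.sym12 h u | exact TS.sym23 h u | exact TS.rot h u | exact TS.rot' h u | exact TS.s13 h u) (show Tri x c d by first | exact w | exact TS.sym12 h w | exact TS.sym23 h w | exact TS.rot h w | exact TS.rot' h w | exact TS.s13 h w) hbd.symm
        (fun e => lpc (by rw [e])) r s hr with e | e | e | e <;> simp [e]
    · rcases h.cyc3 (show Tri x a p by first | exact t1 | exact TS.sym12 h t1 | exact TS.sym23 h t1 | exact TS.rot h t1 | exact TS.rot' h t1 | exact TS.s13 h t1) (show Tri x p c by first | exact t2 | exact TS.sym12 h t2 | exact TS.sym23 h t2 | exact TS.rot h t2 | exact TS.rot' h t2 | exact TS.s13 h t2)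
        (show Tri x c a by first | exact u | exact TS.sym12 h u | exact TS.sym23 h u | exact TS.rot h u | exact TS.rot' h u | exact TS.s13 h u) r s hr with e | e | e <;> simp [e]
    · rcases h.cyc4 (show Tri x p b by first | exact t2 | exact TS.sym12 h t2 | exact TS.sym23 h t2 | exact TS.rot h t2 | exact TS.rot' h t2 | exact TS.s13 h t2) (show Tri x b a by first | exact u | exact TS.sym12 h u | exact TS.sym23 h u | exact TS.rot h u | exact TS.rot' h u | exact TS.s13 h u)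
        (show Tri x a d by first | exact w | exact TS.sym12 h w | exact TS.sym23 h w | exact TS.rot h w | exact TS.rot' h w | exact TS.s13 h w) (show Tri x d p by first | exact t3 | exact TS.sym12 h t3 | exact TS.sym23 h t3 | exact TS.rot h t3 | exact TS.rot' h t3 | exact TS.s13 h t3)
        (fun e => lpa (by rw [e])) hbd r s hr with e | e | e | e <;> simp [e]
    · rcases h.cyc3 (show Tri x a p by first | exact t4 | exact TS.sym12 h t4 | exact TS.sym23 h t4 | exact TS.rot h t4 | exact TS.rot' h t4 | exact TS.s13 h t4) (show Tri x p c by first | exact t3 | exact TS.sym12 h t3 | exact TS.sym23 h t3 | exact TS.rot h t3 | exact TS.rot' h t3 | exact TS.s13 h t3)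
        (show Tri x c a by first | exact w | exact TS.sym12 h w | exact TS.sym23 h w | exact TS.rot h w | exact TS.rot' h w | exact TS.s13 h w) r s hr with e | e | e <;> simp [e]
  · rintro y z (rfl | rfl | rfl | rfl | rfl) (rfl | rfl | rfl | rfl | rfl) e <;>
      first | rfl | exact absurd e ‹_› | exact absurd e.symm ‹_›

/-- octahedron -/
theorem TS.no4c (h : TS Tri) (n5 : ∀ p a b c d e, ¬ Cy5 Tri p a b c d e) {p a b c d x : SL κ}
    (t1 : Tri p a b) (t2 : Tri p b c) (t3 : Tri p c d) (t4 : Tri p d a) (hac : a ≠ c) (hbd : b ≠ d)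
    (u : Tri a b x) (lxp : x.1 ≠ p.1) (lxc : x.1 ≠ c.1) (lxd : x.1 ≠ d.1) : False := by
  have lac := h.APn t1 t3 hac
  have lbd := h.APn t2 t4 hbd
  have lab := h.lab23 t1
  have lbc := h.lab23 t2
  have lcd := h.lab23 t3
  have lda := h.lab23 t4
  have lpa := h.lab t1
  have lpb := h.lab t2
  have lpc := h.lab t3
  have lpd := h.lab t4
  have lxa := (h.lab13 u).symm
  have lxb := (h.lab23 u).symm
  -- link of `a` : d - p - b - x
  have w : Tri a x d := by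
    rcases h.path4 (show Tri a d p by first | exact t4 | exact TS.sym12 h t4 | exact TS.sym23 h t4 | exact TS.rot h t4 | exact TS.rot' h t4 | exact TS.s13 h t4) (show Tri a p b by first | exact t1 | exact TS.sym12 h t1 | exact TS.sym23 h t1 | exact TS.rot h t1 | exact TS.rot' h t1 | exact TS.s13 h t1) u
      hbd.symm (fun e => lxp (by rw [e])) (fun e => lxd (by rw [e])) with w | ⟨e, h5⟩
    · exact w
    · exact absurd h5 (n5 _ _ _ _ _ _)
  -- link of `b` : c - p - a - x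
  have w2 : Tri b x c := by
    rcases h.path4 (show Tri b c p by first | exact t2 | exact TS.sym12 h t2 | exact TS.sym23 h t2 | exact TS.rot h t2 | exact TS.rot' h t2 | exact TS.s13 h t2) (show Tri b p a by first | exact t1 | exact TS.sym12 h t1 | exact TS.sym23 h t1 | exact TS.rot h t1 | exact TS.rot' h t1 | exact TS.s13 h t1)
      (show Tri b a x by first | exact u | exact TS.sym12 h u | exact TS.sym23 h u | exact TS.rot h u | exact TS.rot' h u | exact TS.s13 h u) hac.symm (fun e => lxp (by rw [e]))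
      (fun e => lxc (by rw [e])) with w | ⟨e, h5⟩
    · exact w
    · exact absurd h5 (n5 _ _ _ _ _ _)
  -- link of `d` : c - p - a - x
  have w3 : Tri d x c := by
    rcases h.path4 (show Tri d c p by first | exact t3 | exact TS.sym12 h t3 | exact TS.sym23 h t3 | exact TS.rot h t3 | exact TS.rot' h t3 | exact TS.s13 h t3) (show Tri d p a by first | exact t4 | exact TS.sym12 h t4 | exact TS.sym23 h t4 | exact TS.rot h t4 | exact TS.rot' h t4 | exact TS.s13 h t4)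
      (show Tri d a x by first | exact w | exact TS.sym12 h w | exact TS.sym23 h w | exact TS.rot h w | exact TS.rot' h w | exact TS.s13 h w) hac.symm (fun e => lxp (by rw [e]))
      (fun e => lxc (by rw [e])) with w | ⟨e, h5⟩
    · exact w
    · exact absurd h5 (n5 _ _ _ _ _ _)
  refine h.closed (fun y => y = p ∨ y = x ∨ y = a ∨ y = b ∨ y = c ∨ y = d) ?_ (Or.inl rfl) t1 ?_
  · rintro y r s (rfl | rfl | rfl | rfl | rfl | rfl) hr
    · rcases h.cyc4 t1 t2 t3 t4 hac hbd r s hr with e | e | e | e <;> simp [e]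
    · rcases h.cyc4 (show Tri y a b by first | exact u | exact TS.sym12 h u | exact TS.sym23 h u | exact TS.rot h u | exact TS.rot' h u | exact TS.s13 h u) (show Tri y b c by first | exact w2 | exact TS.sym12 h w2 | exact TS.sym23 h w2 | exact TS.rot h w2 | exact TS.rot' h w2 | exact TS.s13 h w2)
        (show Tri y c d by first | exact w3 | exact TS.sym12 h w3 | exact TS.sym23 h w3 | exact TS.rot h w3 | exact TS.rot' h w3 | exact TS.s13 h w3) (show Tri y d a by first | exact w | exact TS.sym12 h w | exact TS.sym23 h w | exact TS.rot h w | exact TS.rot' h w | exact TS.s13 h w) hac hbd r s hr with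
        e | e | e | e <;> simp [e]
    · rcases h.cyc4 (show Tri y d p by first | exact t4 | exact TS.sym12 h t4 | exact TS.sym23 h t4 | exact TS.rot h t4 | exact TS.rot' h t4 | exact TS.s13 h t4) (show Tri y p b by first | exact t1 | exact TS.sym12 h t1 | exact TS.sym23 h t1 | exact TS.rot h t1 | exact TS.rot' h t1 | exact TS.s13 h t1)
        (show Tri y b x by first | exact u | exact TS.sym12 h u | exact TS.sym23 h u | exact TS.rot h u | exact TS.rot' h u | exact TS.s13 h u) (show Tri y x d by first | exact w | exact TS.sym12 h w | exact TS.sym23 h w | exact TS.rot h w | exact TS.rot' h w | exact TS.s13 h w) hbd.symm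
        (fun e => lxp (by rw [e])) r s hr with e | e | e | e <;> simp [e]
    · rcases h.cyc4 (show Tri y a p by first | exact t1 | exact TS.sym12 h t1 | exact TS.sym23 h t1 | exact TS.rot h t1 | exact TS.rot' h t1 | exact TS.s13 h t1) (show Tri y p c by first | exact t2 | exact TS.sym12 h t2 | exact TS.sym23 h t2 | exact TS.rot h t2 | exact TS.rot' h t2 | exact TS.s13 h t2)
        (show Tri y c x by first | exact w2 | exact TS.sym12 h w2 | exact TS.sym23 h w2 | exact TS.rot h w2 | exact TS.rot' h w2 | exact TS.s13 h w2) (show Tri y x a by first | exact u | exact TS.sym12 h u | exact TS.sym23 h u | exact TS.rot h u | exact TS.rot' h u | exact TS.s13 h u) hac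
        (fun e => lxp (by rw [e])) r s hr with e | e | e | e <;> simp [e]
    · rcases h.cyc4 (show Tri y b p by first | exact t2 | exact TS.sym12 h t2 | exact TS.sym23 h t2 | exact TS.rot h t2 | exact TS.rot' h t2 | exact TS.s13 h t2) (show Tri y p d by first | exact t3 | exact TS.sym12 h t3 | exact TS.sym23 h t3 | exact TS.rot h t3 | exact TS.rot' h t3 | exact TS.s13 h t3)
        (show Tri y d x by first | exact w3 | exact TS.sym12 h w3 | exact TS.sym23 h w3 | exact TS.rot h w3 | exact TS.rot' h w3 | exact TS.s13 h w3) (show Tri y x b by first | exact w2 | exact TS.sym12 h w2 | exact TS.sym23 h w2 | exact TS.rot h w2 | exact TS.rot' h w2 | exact TS.s13 h w2) hbd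
        (fun e => lxp (by rw [e])) r s hr with e | e | e | e <;> simp [e]
    · rcases h.cyc4 (show Tri y c p by first | exact t3 | exact TS.sym12 h t3 | exact TS.sym23 h t3 | exact TS.rot h t3 | exact TS.rot' h t3 | exact TS.s13 h t3) (show Tri y p a by first | exact t4 | exact TS.sym12 h t4 | exact TS.sym23 h t4 | exact TS.rot h t4 | exact TS.rot' h t4 | exact TS.s13 h t4)
        (show Tri y a x by first | exact w | exact TS.sym12 h w | exact TS.sym23 h w | exact TS.rot h w | exact TS.rot' h w | exact TS.s13 h w) (show Tri y x c by first | exact w3 | exact TS.sym12 h w3 | exact TS.sym23 h w3 | exact TS.rot h w3 | exact TS.rot' h w3 | exact TS.s13 h w3) hac.symm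
        (fun e => lxp (by rw [e])) r s hr with e | e | e | e <;> simp [e]
  · rintro y z (rfl | rfl | rfl | rfl | rfl | rfl) (rfl | rfl | rfl | rfl | rfl | rfl) e <;>
      first | rfl | exact absurd e ‹_› | exact absurd e.symm ‹_›

theorem TS.no4 (h : TS Tri) (n5 : ∀ p a b c d e, ¬ Cy5 Tri p a b c d e) :
    ∀ p a b c d, ¬ (Tri p a b ∧ Tri p b c ∧ Tri p c d ∧ Tri p d a ∧ a ≠ c ∧ b ≠ d) := by
  rintro p a b c d ⟨t1, t2, t3, t4, hac, hbd⟩
  obtain ⟨x, hxp, u⟩ := h.ex (show Tri a b p by first | exact t1 | exact TS.sym12 h t1 | exact TS.sym23 h t1 | exact TS.rot h t1 | exact TS.rot' h t1 | exact TS.s13 h t1)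
  by_cases l1 : x.1 = p.1
  · rcases eq_or_ng l1 with e | e
    · exact hxp e
    · rw [e] at u
      exact h.noflip (show Tri a b p by first | exact t1 | exact TS.sym12 h t1 | exact TS.sym23 h t1 | exact TS.rot h t1 | exact TS.rot' h t1 | exact TS.s13 h t1) u
  by_cases l2 : x.1 = c.1
  · have : x = c := h.AP' (show Tri b x a by first | exact u | exact TS.sym12 h u | exact TS.sym23 h u | exact TS.rot h u | exact TS.rot' h u | exact TS.s13 h u) (show Tri b c p by first | exact t2 | exact TS.sym12 h t2 | exact TS.sym23 h t2 | exact TS.rot h t2 | exact TS.rot' h t2 | exact TS.s13 h t2) l2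
    subst this
    exact h.no4a n5 t1 t2 t3 t4 hac hbd u
  by_cases l3 : x.1 = d.1
  · have : x = d := h.AP' (show Tri a x b by first | exact u | exact TS.sym12 h u | exact TS.sym23 h u | exact TS.rot h u | exact TS.rot' h u | exact TS.s13 h u) (show Tri a d p by first | exact t4 | exact TS.sym12 h t4 | exact TS.sym23 h t4 | exact TS.rot h t4 | exact TS.rot' h t4 | exact TS.s13 h t4) l3
    subst this
    exact h.no4a n5 (show Tri p b a by first | exact t1 | exact TS.sym12 h t1 | exact TS.sym23 h t1 | exact TS.rot h t1 | exact TS.rot' h t1 | exact TS.s13 h t1) (show Tri p a x by first | exact t4 | exact TS.sym12 h t4 | exact TS.sym23 h t4 | exact TS.rot h t4 | exact TS.rot' h t4 | exact TS.s13 h t4)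
      (show Tri p x c by first | exact t3 | exact TS.sym12 h t3 | exact TS.sym23 h t3 | exact TS.rot h t3 | exact TS.rot' h t3 | exact TS.s13 h t3) (show Tri p c b by first | exact t2 | exact TS.sym12 h t2 | exact TS.sym23 h t2 | exact TS.rot h t2 | exact TS.rot' h t2 | exact TS.s13 h t2) hbd hac (show Tri b a x by first | exact u | exact TS.sym12 h u | exact TS.sym23 h u | exact TS.rot h u | exact TS.rot' h u | exact TS.s13 h u)
  exact h.no4c n5 t1 t2 t3 t4 hac hbd u l1 l2 l3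

/-! ### Pentagonal links -/

theorem TS.pent1 (h : TS Tri) {p q₁ q₂ q₃ q₄ q₅ e a b : SL κ} (H : Cy5 Tri p q₁ q₂ q₃ q₄ q₅)
    (t : Tri e a b) (ep : e.1 ≠ p.1) (e1 : e.1 ≠ q₁.1) (e2 : e.1 ≠ q₂.1) (e3 : e.1 ≠ q₃.1)
    (e4 : e.1 ≠ q₄.1) (e5 : e.1 ≠ q₅.1) (a2 : a.1 ≠ q₂.1) (a3 : a.1 ≠ q₃.1) (a5 : a.1 ≠ q₅.1)
    (b2 : b.1 ≠ q₂.1) (b3 : b.1 ≠ q₃.1) (b5 : b.1 ≠ q₅.1) : False := by
  obtain ⟨⟨hp1, hp2, hp3, hp4, hp5⟩, ⟨h12, h13, h14, h15⟩, ⟨h23, h24, h25⟩, ⟨h34, h35⟩, h45⟩ :=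
    H.labs h
  have ea := h.lab t
  have eb := h.lab13 t
  exact h.pr4 (show Tri q₅ p q₁ by first | exact H.t5 | exact TS.sym12 h H.t5 | exact TS.sym23 h H.t5 | exact TS.rot h H.t5 | exact TS.rot' h H.t5 | exact TS.s13 h H.t5) (show Tri q₂ p q₁ by first | exact H.t1 | exact TS.sym12 h H.t1 | exact TS.sym23 h H.t1 | exact TS.rot h H.t1 | exact TS.rot' h H.t1 | exact TS.s13 h H.t1)
    (show Tri q₃ p q₄ by first | exact H.t3 | exact TS.sym12 h H.t3 | exact TS.sym23 h H.t3 | exact TS.rot h H.t3 | exact TS.rot' h H.t3 | exact TS.s13 h H.t3) t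
    ⟨h25.symm, hp5.symm, h15.symm, h35.symm, hp5.symm, h45.symm, e5.symm, a5.symm, b5.symm⟩
    ⟨h25, hp2.symm, h12.symm, h23, hp2.symm, h24, e2.symm, a2.symm, b2.symm⟩
    ⟨h35, hp3.symm, h13.symm, h23.symm, hp3.symm, h13.symm, e3.symm, a3.symm, b3.symm⟩
    ⟨e5, ep, e1, e2, ep, e1, e3, ep, e4⟩

/-- `e` is a label outside of the star -/
def Out (p q₁ q₂ q₃ q₄ q₅ e : SL κ) : Prop :=
  e.1 ≠ p.1 ∧ e.1 ≠ q₁.1 ∧ e.1 ≠ q₂.1 ∧ e.1 ≠ q₃.1 ∧ e.1 ≠ q₄.1 ∧ e.1 ≠ q₅.1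

theorem Out.rot {p q₁ q₂ q₃ q₄ q₅ e : SL κ} (o : Out p q₁ q₂ q₃ q₄ q₅ e) :
    Out p q₂ q₃ q₄ q₅ q₁ e := ⟨o.1, o.2.2.1, o.2.2.2.1, o.2.2.2.2.1, o.2.2.2.2.2, o.2.1⟩

theorem TS.pent2 (h : TS Tri) {p q₁ q₂ q₃ q₄ q₅ e a b : SL κ} (H : Cy5 Tri p q₁ q₂ q₃ q₄ q₅)
    (o : Out p q₁ q₂ q₃ q₄ q₅ e) (t : Tri e a b) (ha : a.1 = q₁.1) :
    b.1 = q₂.1 ∨ b.1 = q₅.1 := by
  obtain ⟨⟨hp1, hp2, hp3, hp4, hp5⟩, ⟨h12, h13, h14, h15⟩, ⟨h23, h24, h25⟩, ⟨h34, h35⟩, h45⟩ :=
    H.labs h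
  obtain ⟨ep, e1, e2, e3, e4, e5⟩ := o
  by_contra hcon
  push Not at hcon
  obtain ⟨b2, b5⟩ := hcon
  by_cases b3 : b.1 = q₃.1
  · have b4 : b.1 ≠ q₄.1 := by rw [b3]; exact h34
    exact h.pent1 (H.refl h).rot t ep e1 e5 e4 e3 e2 (by rw [ha]; exact h15)
      (by rw [ha]; exact h14) (by rw [ha]; exact h12) b5 b4 b2
  · exact h.pent1 H t ep e1 e2 e3 e4 e5 (by rw [ha]; exact h12) (by rw [ha]; exact h13)
      (by rw [ha]; exact h15) b2 b3 b5

theorem TS.pent3 (h : TS Tri) {p q₁ q₂ q₃ q₄ q₅ e : SL κ} (H : Cy5 Tri p q₁ q₂ q₃ q₄ q₅)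
    (o : Out p q₁ q₂ q₃ q₄ q₅ e) (t : Tri e q₁ q₂) : Tri e q₂ q₃ := by
  obtain ⟨x, hx, u⟩ := h.ex (h.sym23 t)
  rcases h.pent2 H.rot o.rot u rfl with l | l
  · have : x = q₃ := h.AP' (show Tri q₂ x e by first | exact u | exact TS.sym12 h u | exact TS.sym23 h u | exact TS.rot h u | exact TS.rot' h u | exact TS.s13 h u) (show Tri q₂ q₃ p by first | exact H.t2 | exact TS.sym12 h H.t2 | exact TS.sym23 h H.t2 | exact TS.rot h H.t2 | exact TS.rot' h H.t2 | exact TS.s13 h H.t2) l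
    rw [← this]; exact u
  · exact absurd (h.AP' (show Tri e x q₂ by first | exact u | exact TS.sym12 h u | exact TS.sym23 h u | exact TS.rot h u | exact TS.rot' h u | exact TS.s13 h u) t l) hx

theorem TS.pent4 (h : TS Tri) {p q₁ q₂ q₃ q₄ q₅ e : SL κ} (H : Cy5 Tri p q₁ q₂ q₃ q₄ q₅)
    (o : Out p q₁ q₂ q₃ q₄ q₅ e) (t : Tri e q₁ q₂) : False := by
  have u2 := h.pent3 H o t
  have u3 := h.pent3 H.rot o.rot u2
  have u4 := h.pent3 H.rot.rot o.rot.rot u3
  have u5 := h.pent3 H.rot.rot.rot o.rot.rot.rot u4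
  have He : Cy5 Tri e q₁ q₂ q₃ q₄ q₅ := ⟨t, u2, u3, u4, u5, H.hac, H.hbd, H.hce, H.hda, H.heb⟩
  obtain ⟨⟨hp1, hp2, hp3, hp4, hp5⟩, ⟨h12, h13, h14, h15⟩, ⟨h23, h24, h25⟩, ⟨h34, h35⟩, h45⟩ :=
    H.labs h
  obtain ⟨ep, e1, e2, e3, e4, e5⟩ := o
  have hpe : p ≠ e := fun e' => ep (by rw [e'])
  have key : ∀ {a b c : SL κ}, Tri p a b → Tri p c a → Tri e a b → Tri e c a → b ≠ c →
      ∀ r s, Tri a r s → r = p ∨ r = b ∨ r = e ∨ r = c := by
    intro a b c v1 v2 v3 v4 hbc r s hr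
    exact h.cyc4 (show Tri a p b by first | exact v1 | exact TS.sym12 h v1 | exact TS.sym23 h v1 | exact TS.rot h v1 | exact TS.rot' h v1 | exact TS.s13 h v1) (show Tri a b e by first | exact v3 | exact TS.sym12 h v3 | exact TS.sym23 h v3 | exact TS.rot h v3 | exact TS.rot' h v3 | exact TS.s13 h v3)
      (show Tri a e c by first | exact v4 | exact TS.sym12 h v4 | exact TS.sym23 h v4 | exact TS.rot h v4 | exact TS.rot' h v4 | exact TS.s13 h v4) (show Tri a c p by first | exact v2 | exact TS.sym12 h v2 | exact TS.sym23 h v2 | exact TS.rot h v2 | exact TS.rot' h v2 | exact TS.s13 h v2) hpe hbc r s hr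
  refine h.closed (fun y => y = p ∨ y = e ∨ y = q₁ ∨ y = q₂ ∨ y = q₃ ∨ y = q₄ ∨ y = q₅) ?_
    (Or.inl rfl) H.t1 ?_
  · rintro y r s (rfl | rfl | rfl | rfl | rfl | rfl | rfl) hr
    · rcases H.link h r s hr with e | e | e | e | e <;> simp [e]
    · rcases He.link h r s hr with e | e | e | e | e <;> simp [e]
    · rcases key H.t1 H.t5 He.t1 He.t5 H.heb.symm r s hr with e | e | e | e <;> simp [e]
    · rcases key H.t2 H.t1 He.t2 He.t1 H.hac.symm r s hr with e | e | e | e <;> simp [e]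
    · rcases key H.t3 H.t2 He.t3 He.t2 H.hbd.symm r s hr with e | e | e | e <;> simp [e]
    · rcases key H.t4 H.t3 He.t4 He.t3 H.hce.symm r s hr with e | e | e | e <;> simp [e]
    · rcases key H.t5 H.t4 He.t5 He.t4 H.hda.symm r s hr with e | e | e | e <;> simp [e]
  · rintro y z (rfl | rfl | rfl | rfl | rfl | rfl | rfl) (rfl | rfl | rfl | rfl | rfl | rfl | rfl)
      e <;>
      first | rfl | exact absurd e ‹_› | exact absurd e.symm ‹_›

theorem TS.pent5 (h : TS Tri) {p q₁ q₂ q₃ q₄ q₅ e a b : SL κ} (H : Cy5 Tri p q₁ q₂ q₃ q₄ q₅)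
    (o : Out p q₁ q₂ q₃ q₄ q₅ e) (t : Tri e a b) (ha : a.1 = q₁.1) (hb : b.1 = q₂.1) :
    False := by
  rcases eq_or_ng ha with rfl | rfl
  · have : b = q₂ := h.AP' (show Tri a b e by first | exact t | exact TS.sym12 h t | exact TS.sym23 h t | exact TS.rot h t | exact TS.rot' h t | exact TS.s13 h t) (show Tri a q₂ p by first | exact H.t1 | exact TS.sym12 h H.t1 | exact TS.sym23 h H.t1 | exact TS.rot h H.t1 | exact TS.rot' h H.t1 | exact TS.s13 h H.t1) hb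
    subst this
    exact h.pent4 H o t
  · have t' := h.neg t
    rw [ng_ng] at t'
    have : ng b = q₂ := h.AP' (show Tri q₁ (ng b) (ng e) by first | exact t' | exact TS.sym12 h t' | exact TS.sym23 h t' | exact TS.rot h t' | exact TS.rot' h t' | exact TS.s13 h t')
      (show Tri q₁ q₂ p by first | exact H.t1 | exact TS.sym12 h H.t1 | exact TS.sym23 h H.t1 | exact TS.rot h H.t1 | exact TS.rot' h H.t1 | exact TS.s13 h H.t1) hb
    rw [this] at t'
    exact h.pent4 H (e := ng e) o t'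

theorem TS.pent6 (h : TS Tri) {p q₁ q₂ q₃ q₄ q₅ e a b : SL κ} (H : Cy5 Tri p q₁ q₂ q₃ q₄ q₅)
    (o : Out p q₁ q₂ q₃ q₄ q₅ e) (t : Tri e a b) (ha : a.1 = q₁.1) : False := by
  rcases h.pent2 H o t ha with hb | hb
  · exact h.pent5 H o t ha hb
  · exact h.pent5 H.rot.rot.rot.rot o.rot.rot.rot.rot (h.sym23 t) hb ha

/-- no vertex contains a label outside of a pentagonal star -/
theorem TS.out5 (h : TS Tri) {p q₁ q₂ q₃ q₄ q₅ e a b : SL κ} (H : Cy5 Tri p q₁ q₂ q₃ q₄ q₅)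
    (o : Out p q₁ q₂ q₃ q₄ q₅ e) (t : Tri e a b) : False := by
  have key : ∀ {a b : SL κ}, Tri e a b → a.1 ≠ q₁.1 ∧ a.1 ≠ q₂.1 ∧ a.1 ≠ q₃.1 ∧ a.1 ≠ q₄.1 ∧
      a.1 ≠ q₅.1 := by
    intro a b t
    exact ⟨fun l => h.pent6 H o t l, fun l => h.pent6 H.rot o.rot t l,
      fun l => h.pent6 H.rot.rot o.rot.rot t l, fun l => h.pent6 H.rot.rot.rot o.rot.rot.rot t l,
      fun l => h.pent6 H.rot.rot.rot.rot o.rot.rot.rot.rot t l⟩
  obtain ⟨a1, a2, a3, a4, a5⟩ := key t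
  obtain ⟨b1, b2, b3, b4, b5⟩ := key (h.sym23 t)
  obtain ⟨ep, e1, e2, e3, e4, e5⟩ := o
  exact h.pent1 H t ep e1 e2 e3 e4 e5 a2 a3 a5 b2 b3 b5

/-- propagation of the negative triangles -/
theorem TS.stepF (h : TS Tri) {p q₁ q₂ q₃ q₄ q₅ : SL κ} (H : Cy5 Tri p q₁ q₂ q₃ q₄ q₅)
    (t : Tri q₁ q₂ (ng q₄)) : Tri q₂ q₃ (ng q₅) := by
  obtain ⟨⟨hp1, hp2, hp3, hp4, hp5⟩, ⟨h12, h13, h14, h15⟩, ⟨h23, h24, h25⟩, ⟨h34, h35⟩, h45⟩ :=
    H.labs h
  obtain ⟨a, hap, u⟩ := h.ex (show Tri q₂ q₃ p by first | exact H.t2 | exact TS.sym12 h H.t2 | exact TS.sym23 h H.t2 | exact TS.rot h H.t2 | exact TS.rot' h H.t2 | exact TS.s13 h H.t2)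
  have a2 := (h.lab13 u).symm
  have a3 := (h.lab23 u).symm
  by_cases lp : a.1 = p.1
  · rcases eq_or_ng lp with e | e
    · exact absurd e hap
    · rw [e] at u
      exact absurd u (h.noflip (show Tri q₂ q₃ p by first | exact H.t2 | exact TS.sym12 h H.t2 | exact TS.sym23 h H.t2 | exact TS.rot h H.t2 | exact TS.rot' h H.t2 | exact TS.s13 h H.t2))
  by_cases l1 : a.1 = q₁.1
  · exfalso
    have : a = q₁ := h.AP' (show Tri q₂ a q₃ by first | exact u | exact TS.sym12 h u | exact TS.sym23 h u | exact TS.rot h u | exact TS.rot' h u | exact TS.s13 h u) (show Tri q₂ q₁ p by first | exact H.t1 | exact TS.sym12 h H.t1 | exact TS.sym23 h H.t1 | exact TS.rot h H.t1 | exact TS.rot' h H.t1 | exact TS.s13 h H.t1) l1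
    subst this
    rcases h.uniq (show Tri a q₂ p by first | exact H.t1 | exact TS.sym12 h H.t1 | exact TS.sym23 h H.t1 | exact TS.rot h H.t1 | exact TS.rot' h H.t1 | exact TS.s13 h H.t1) t (show Tri a q₂ q₃ by first | exact u | exact TS.sym12 h u | exact TS.sym23 h u | exact TS.rot h u | exact TS.rot' h u | exact TS.s13 h u)
      (fun e => hp4 (by rw [e]; rfl)) with e | e
    · exact hp3 (by rw [e])
    · exact h34 (by rw [e]; rfl)
  by_cases l4 : a.1 = q₄.1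
  · exfalso
    have : a = q₄ := h.AP' (show Tri q₃ a q₂ by first | exact u | exact TS.sym12 h u | exact TS.sym23 h u | exact TS.rot h u | exact TS.rot' h u | exact TS.s13 h u) (show Tri q₃ q₄ p by first | exact H.t3 | exact TS.sym12 h H.t3 | exact TS.sym23 h H.t3 | exact TS.rot h H.t3 | exact TS.rot' h H.t3 | exact TS.s13 h H.t3) l4
    subst this
    exact h.AP (show Tri q₂ a q₃ by first | exact u | exact TS.sym12 h u | exact TS.sym23 h u | exact TS.rot h u | exact TS.rot' h u | exact TS.s13 h u) (show Tri q₂ (ng a) q₁ by first | exact t | exact TS.sym12 h t | exact TS.sym23 h t | exact TS.rot h t | exact TS.rot' h t | exact TS.s13 h t)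
  by_cases l5 : a.1 = q₅.1
  · rcases eq_or_ng l5 with e | e
    · exfalso
      subst e
      rcases h.path4 (show Tri q₂ (ng q₄) q₁ by first | exact t | exact TS.sym12 h t | exact TS.sym23 h t | exact TS.rot h t | exact TS.rot' h t | exact TS.s13 h t) (show Tri q₂ q₁ p by first | exact H.t1 | exact TS.sym12 h H.t1 | exact TS.sym23 h H.t1 | exact TS.rot h H.t1 | exact TS.rot' h H.t1 | exact TS.s13 h H.t1)
        (show Tri q₂ p q₃ by first | exact H.t2 | exact TS.sym12 h H.t2 | exact TS.sym23 h H.t2 | exact TS.rot h H.t2 | exact TS.rot' h H.t2 | exact TS.s13 h H.t2) (fun e => hp4 (by rw [← e]; rfl)) H.hac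
        (fun e => h34 (by rw [← e]; rfl)) with w | ⟨e', H'⟩
      · rcases h.uniq (show Tri q₂ q₃ p by first | exact H.t2 | exact TS.sym12 h H.t2 | exact TS.sym23 h H.t2 | exact TS.rot h H.t2 | exact TS.rot' h H.t2 | exact TS.s13 h H.t2) u w (fun e => hp5 (by rw [e])) with e | e
        · exact hp4 (by rw [← e]; rfl)
        · exact h45 (by rw [← e]; rfl)
      · rcases h.uniq (show Tri q₂ q₃ p by first | exact H.t2 | exact TS.sym12 h H.t2 | exact TS.sym23 h H.t2 | exact TS.rot h H.t2 | exact TS.rot' h H.t2 | exact TS.s13 h H.t2) u H'.t4 (fun e => hp5 (by rw [e])) with e | e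
        · exact H'.hce e.symm
        · subst e
          exact h.AP (show Tri e' q₄ p by first | exact H.t4 | exact TS.sym12 h H.t4 | exact TS.sym23 h H.t4 | exact TS.rot h H.t4 | exact TS.rot' h H.t4 | exact TS.s13 h H.t4) (show Tri e' (ng q₄) q₂ by first | exact H'.t5 | exact TS.sym12 h H'.t5 | exact TS.sym23 h H'.t5 | exact TS.rot h H'.t5 | exact TS.rot' h H'.t5 | exact TS.s13 h H'.t5)
    · rw [e] at u; exact u
  · exact absurd (show Tri a q₂ q₃ by first | exact u | exact TS.sym12 h u | exact TS.sym23 h u | exact TS.rot h u | exact TS.rot' h u | exact TS.s13 h u) (fun u' => h.out5 H ⟨lp, l1, a2, a3, l4, l5⟩ u')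

theorem TS.ico_of (h : TS Tri) {p q₁ q₂ q₃ q₄ q₅ : SL κ} (H : Cy5 Tri p q₁ q₂ q₃ q₄ q₅)
    (t : Tri q₁ q₂ (ng q₄)) : ∃ p q₁ q₂ q₃ q₄ q₅, Ico Tri p q₁ q₂ q₃ q₄ q₅ := by
  obtain ⟨hp, h1, h2, h3, h4⟩ := H.labs h
  have u2 := h.stepF H t
  have u3 := h.stepF H.rot u2
  have u4 := h.stepF H.rot.rot u3
  have u5 := h.stepF H.rot.rot.rot u4
  exact ⟨p, q₁, q₂, q₃, q₄, q₅, hp, h1, h2, h3, h4, ⟨H.t1, H.t2, H.t3, H.t4, H.t5⟩,
    ⟨t, u2, u3, u4, u5⟩⟩

/-- the other neighbour over an edge of the pentagon -/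
theorem TS.nbr5 (h : TS Tri) {p q₁ q₂ q₃ q₄ q₅ x : SL κ} (H : Cy5 Tri p q₁ q₂ q₃ q₄ q₅)
    (u : Tri q₁ q₂ x) (hxp : x ≠ p)
    (hno : ¬ ∃ p q₁ q₂ q₃ q₄ q₅, Ico Tri p q₁ q₂ q₃ q₄ q₅) :
    x = q₃ ∨ x = q₄ ∨ x = q₅ := by
  have x1 := (h.lab13 u).symm
  have x2 := (h.lab23 u).symm
  by_cases lp : x.1 = p.1
  · rcases eq_or_ng lp with e | e
    · exact absurd e hxp
    · rw [e] at u
      exact absurd u (h.noflip (show Tri q₁ q₂ p by first | exact H.t1 | exact TS.sym12 h H.t1 | exact TS.sym23 h H.t1 | exact TS.rot h H.t1 | exact TS.rot' h H.t1 | exact TS.s13 h H.t1))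
  by_cases l3 : x.1 = q₃.1
  · exact Or.inl (h.AP' (show Tri q₂ x q₁ by first | exact u | exact TS.sym12 h u | exact TS.sym23 h u | exact TS.rot h u | exact TS.rot' h u | exact TS.s13 h u) (show Tri q₂ q₃ p by first | exact H.t2 | exact TS.sym12 h H.t2 | exact TS.sym23 h H.t2 | exact TS.rot h H.t2 | exact TS.rot' h H.t2 | exact TS.s13 h H.t2) l3)
  by_cases l5 : x.1 = q₅.1
  · exact Or.inr (Or.inr (h.AP' (show Tri q₁ x q₂ by first | exact u | exact TS.sym12 h u | exact TS.sym23 h u | exact TS.rot h u | exact TS.rot' h u | exact TS.s13 h u) (show Tri q₁ q₅ p by first | exact H.t5 | exact TS.sym12 h H.t5 | exact TS.sym23 h H.t5 | exact TS.rot h H.t5 | exact TS.rot' h H.t5 | exact TS.s13 h H.t5) l5))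
  by_cases l4 : x.1 = q₄.1
  · rcases eq_or_ng l4 with e | e
    · exact Or.inr (Or.inl e)
    · rw [e] at u
      exact absurd (h.ico_of H u) hno
  · exact absurd (show Tri x q₁ q₂ by first | exact u | exact TS.sym12 h u | exact TS.sym23 h u | exact TS.rot h u | exact TS.rot' h u | exact TS.s13 h u) (fun u' => h.out5 H ⟨lp, x1, x2, l3, l4, l5⟩ u')

theorem TS.link5 (h : TS Tri) {p q₁ q₂ q₃ q₄ q₅ : SL κ} (H : Cy5 Tri p q₁ q₂ q₃ q₄ q₅)
    (hno : ¬ ∃ p q₁ q₂ q₃ q₄ q₅, Ico Tri p q₁ q₂ q₃ q₄ q₅) :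
    ∀ r s, Tri q₁ r s → r = p ∨ r = q₂ ∨ r = q₃ ∨ r = q₄ ∨ r = q₅ := by
  obtain ⟨x, hxp, u⟩ := h.ex (show Tri q₁ q₂ p by first | exact H.t1 | exact TS.sym12 h H.t1 | exact TS.sym23 h H.t1 | exact TS.rot h H.t1 | exact TS.rot' h H.t1 | exact TS.s13 h H.t1)
  obtain ⟨y, hyp, w⟩ := h.ex (show Tri q₅ q₁ p by first | exact H.t5 | exact TS.sym12 h H.t5 | exact TS.sym23 h H.t5 | exact TS.rot h H.t5 | exact TS.rot' h H.t5 | exact TS.s13 h H.t5)
  have hx := h.nbr5 H u hxp hno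
  have hy := h.nbr5 H.rot.rot.rot.rot w hyp hno
  have v1 : Tri q₁ q₅ p := by first | exact H.t5 | exact TS.sym12 h H.t5 | exact TS.sym23 h H.t5 | exact TS.rot h H.t5 | exact TS.rot' h H.t5 | exact TS.s13 h H.t5
  have v2 : Tri q₁ p q₂ := by first | exact H.t1 | exact TS.sym12 h H.t1 | exact TS.sym23 h H.t1 | exact TS.rot h H.t1 | exact TS.rot' h H.t1 | exact TS.s13 h H.t1
  intro r s hr
  by_cases hx5 : q₅ = x
  · subst hx5
    rcases h.cyc3 v1 v2 u r s hr with e | e | e <;> simp [e]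
  · rcases h.path4 v1 v2 u H.heb hxp.symm hx5 with z | ⟨e', H'⟩
    · rcases h.cyc4 v1 v2 u z H.heb hxp.symm r s hr with e | e | e | e
      · simp [e]
      · simp [e]
      · simp [e]
      · rcases hx with hx | hx | hx <;> simp [e, hx]
    · have hey : e' = y := by
        rcases h.uniq v1 (show Tri q₁ q₅ y by first | exact w | exact TS.sym12 h w | exact TS.sym23 h w | exact TS.rot h w | exact TS.rot' h w | exact TS.s13 h w) (show Tri q₁ q₅ e' by first | exact H'.t5 | exact TS.sym12 h H'.t5 | exact TS.sym23 h H'.t5 | exact TS.rot h H'.t5 | exact TS.rot' h H'.t5 | exact TS.s13 h H'.t5)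
          hyp.symm with e | e
        · exact absurd e H'.heb
        · exact e
      subst hey
      rcases H'.link h r s hr with e | e | e | e | e
      · simp [e]
      · simp [e]
      · simp [e]
      · rcases hx with hx | hx | hx <;> simp [e, hx]
      · rcases hy with hy | hy | hy <;> simp [e, hy]

theorem exists_ico (h : TS Tri)
    (h0 : ∃ a b c, Tri a b c) : ∃ p q₁ q₂ q₃ q₄ q₅, Ico Tri p q₁ q₂ q₃ q₄ q₅ := by
  obtain ⟨a0, b0, c0, t0⟩ := h0
  by_contra hno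
  by_cases h5 : ∃ p a b c d e, Cy5 Tri p a b c d e
  · obtain ⟨p, q₁, q₂, q₃, q₄, q₅, H⟩ := h5
    obtain ⟨⟨hp1, hp2, hp3, hp4, hp5⟩, ⟨h12, h13, h14, h15⟩, ⟨h23, h24, h25⟩, ⟨h34, h35⟩, h45⟩ :=
      H.labs h
    refine h.closed (fun y => y = p ∨ y = q₁ ∨ y = q₂ ∨ y = q₃ ∨ y = q₄ ∨ y = q₅) ?_
      (Or.inl rfl) H.t1 ?_
    · rintro y r s (rfl | rfl | rfl | rfl | rfl | rfl) hr
      · rcases H.link h r s hr with e | e | e | e | e <;> simp [e]
      · rcases h.link5 H hno r s hr with e | e | e | e | e <;> simp [e]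
      · rcases h.link5 H.rot hno r s hr with e | e | e | e | e <;> simp [e]
      · rcases h.link5 H.rot.rot hno r s hr with e | e | e | e | e <;> simp [e]
      · rcases h.link5 H.rot.rot.rot hno r s hr with e | e | e | e | e <;> simp [e]
      · rcases h.link5 H.rot.rot.rot.rot hno r s hr with e | e | e | e | e <;> simp [e]
    · rintro y z (rfl | rfl | rfl | rfl | rfl | rfl) (rfl | rfl | rfl | rfl | rfl | rfl) e <;>
        first | rfl | exact absurd e ‹_› | exact absurd e.symm ‹_›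
  · have n5 : ∀ p a b c d e, ¬ Cy5 Tri p a b c d e :=
      fun p a b c d e H => h5 ⟨p, a, b, c, d, e, H⟩
    exact h.no3 (h.no4 n5) n5 t0

end

end Pool.Agent.Lib.MP_1be6c9_co.M3
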