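import Pool.Agent.Lib.MP_1be6c9_co.M3.Defs

/-!
Vertices, directions and rays.
-/

namespace Pool.Agent.Lib.MP_1be6c9_co.M3

open Finset Pool.Agent.Lib.MP_1be6c9_co

variable {κ E : Type*} [Fintype κ] [DecidableEq κ] [NormedAddCommGroup E] [InnerProductSpace ℝ E]
  [FiniteDimensional ℝ E] {v : κ → E}

theorem abs_eq_one_of_co {κ : Type*} {x : κ → ℝ} {a : SL κ} (h : co x a = 1) : |x a.1| = 1 := by
  rw [← abs_co, h, abs_one]

theorem isV_fr (h : Cx v) {x : κ → ℝ} {a b c : SL κ} (hx : IsV v x a b c) :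
    fr x = Finset.univ \ {a.1, b.1, c.1} ∧ (fr x).card = Module.finrank ℝ E := by
  obtain ⟨h1, h2, hab, hac, hbc, ha, hb, hc⟩ := hx
  have hcard : (Finset.univ \ ({a.1, b.1, c.1} : Finset κ)).card = Module.finrank ℝ E := by
    rw [Finset.card_sdiff_of_subset (Finset.subset_univ _), Finset.card_univ, h.card,
      Finset.card_eq_three.mpr ⟨a.1, b.1, c.1, hab, hac, hbc, rfl⟩]
    omega
  have hle := long_card v h.unit 1 le_rfl h.long x h1 h2
  have hsub : fr x ⊆ Finset.univ \ ({a.1, b.1, c.1} : Finset κ) := by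
    intro i hi
    rw [mem_fr] at hi
    simp only [Finset.mem_sdiff, Finset.mem_univ, true_and, Finset.mem_insert,
      Finset.mem_singleton, not_or]
    refine ⟨?_, ?_, ?_⟩
    · rintro rfl; rw [abs_eq_one_of_co ha] at hi; exact lt_irrefl _ hi
    · rintro rfl; rw [abs_eq_one_of_co hb] at hi; exact lt_irrefl _ hi
    · rintro rfl; rw [abs_eq_one_of_co hc] at hi; exact lt_irrefl _ hi
  have heq : fr x = Finset.univ \ ({a.1, b.1, c.1} : Finset κ) :=
    Finset.eq_of_subset_of_card_le hsub (by rw [hcard]; exact hle)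
  exact ⟨heq, by rw [heq, hcard]⟩

/-- All other coordinates of a vertex are free. -/
theorem isV_free (h : Cx v) {x : κ → ℝ} {a b c : SL κ} (hx : IsV v x a b c) (i : κ)
    (ha : i ≠ a.1) (hb : i ≠ b.1) (hc : i ≠ c.1) : |x i| < 1 := by
  rw [← mem_fr, (isV_fr h hx).1]
  simp [ha, hb, hc]

theorem isV_indep (h : Cx v) {x : κ → ℝ} {a b c : SL κ} (hx : IsV v x a b c) :
    LinearIndepOn ℝ v (fr x : Set κ) :=
  bas_indep v h.unit 1 le_rfl h.long x ⟨hx.1, hx.2.1, (isV_fr h hx).2⟩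

/-- A relation vanishing at three tight coordinates is zero. -/
theorem isV_inj (h : Cx v) {x : κ → ℝ} {a b c : SL κ} (hx : IsV v x a b c) (z : κ → ℝ)
    (hz : ∑ i, z i • v i = 0) (ha : z a.1 = 0) (hb : z b.1 = 0) (hc : z c.1 = 0) : z = 0 := by
  have hi := isV_indep h hx
  rw [linearIndepOn_finset_iff] at hi
  have hout : ∀ i, i ∉ fr x → z i = 0 := by
    intro i hi
    rw [(isV_fr h hx).1] at hi
    simp only [Finset.mem_sdiff, Finset.mem_univ, true_and, Finset.mem_insert,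
      Finset.mem_singleton, not_not] at hi
    rcases hi with rfl | rfl | rfl
    · exact ha
    · exact hb
    · exact hc
  have hsum : ∑ i ∈ fr x, z i • v i = 0 := by
    rw [← hz]
    refine Finset.sum_subset (Finset.subset_univ _) fun i _ hi => ?_
    rw [hout i hi, zero_smul]
  funext i
  by_cases hm : i ∈ fr x
  · exact hi z hsum i hm
  · exact hout i hm

theorem isV_unique (h : Cx v) {x y : κ → ℝ} {a b c : SL κ} (hx : IsV v x a b c)
    (hy : IsV v y a b c) : x = y := by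
  have e : ∀ d : SL κ, co x d = 1 → co y d = 1 → x d.1 - y d.1 = 0 := by
    intro d h1 h2
    rw [← sg_mul_co x d, ← sg_mul_co y d, h1, h2]; ring
  have := isV_inj h hx (fun i => x i - y i)
    (by simp only [sub_smul, Finset.sum_sub_distrib, hx.2.1, hy.2.1, sub_zero])
    (e a hx.2.2.2.2.2.1 hy.2.2.2.2.2.1) (e b hx.2.2.2.2.2.2.1 hy.2.2.2.2.2.2.1)
    (e c hx.2.2.2.2.2.2.2 hy.2.2.2.2.2.2.2)
  funext i
  have := congrFun this i
  simp only [Pi.zero_apply] at this
  linarith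

/-- Edge directions. -/
theorem exists_dir (h : Cx v) {x : κ → ℝ} {a b c : SL κ} (hx : IsV v x a b c) :
    ∃ z : κ → ℝ, ∑ i, z i • v i = 0 ∧ z a.1 = 0 ∧ z b.1 = 0 ∧ co z c = -1 := by
  obtain ⟨hfr, hcard⟩ := isV_fr h hx
  have hi := isV_indep h hx
  obtain ⟨h1, h2, hab, hac, hbc, ha, hb, hc⟩ := hx
  have hli : LinearIndependent ℝ (fun i : fr x => v i) := hi
  have hsp := hli.span_eq_top_of_card_eq_finrank' (by simpa using hcard)
  have hmem : uv v c ∈ Submodule.span ℝ (Set.range (fun i : fr x => v i)) := by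
    rw [hsp]; trivial
  rw [Submodule.mem_span_range_iff_exists_fun] at hmem
  obtain ⟨f, hf⟩ := hmem
  set g : κ → ℝ := fun i => if hi : i ∈ fr x then f ⟨i, hi⟩ else 0 with hg
  have hgs : ∑ i ∈ fr x, g i • v i = uv v c := by
    rw [← hf, ← Finset.sum_coe_sort]
    refine Finset.sum_congr rfl fun i _ => ?_
    simp [hg]
  have na : a.1 ∉ fr x := by rw [hfr]; simp
  have nb : b.1 ∉ fr x := by rw [hfr]; simp
  have nc : c.1 ∉ fr x := by rw [hfr]; simp
  refine ⟨fun i => g i - (if i = c.1 then sg c.2 else 0), ?_, ?_, ?_, ?_⟩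
  · have e1 : ∑ i, g i • v i = uv v c := by
      rw [← hgs]
      symm
      refine Finset.sum_subset (Finset.subset_univ _) fun i _ hi => ?_
      simp only [hg, dif_neg hi, zero_smul]
    have e2 : ∑ i, (if i = c.1 then sg c.2 else 0) • v i = uv v c := by
      simp [uv, ite_smul]
    simp only [sub_smul, Finset.sum_sub_distrib, e1, e2, sub_self]
  · simp only [hg, dif_neg na, if_neg hac, sub_self]
  · simp only [hg, dif_neg nb, if_neg hbc, sub_self]
  · simp only [co, hg, dif_neg nc, if_true, zero_sub, mul_neg, sg_mul_self]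

theorem co_le_one {κ : Type*} {x : κ → ℝ} (hx : ∀ i, |x i| ≤ 1) (a : SL κ) : co x a ≤ 1 :=
  (le_abs_self _).trans (by rw [abs_co]; exact hx _)

theorem co_lin {κ : Type*} (x z : κ → ℝ) (t : ℝ) (a : SL κ) :
    co (fun i => x i + t * z i) a = co x a + t * co z a := by
  simp only [co]; ring

/-- Moving along an edge leads to another vertex. -/
theorem ray (h : Cx v) {x : κ → ℝ} {a b c : SL κ} (hx : IsV v x a b c) (z : κ → ℝ)
    (hz : ∑ i, z i • v i = 0) (ha : z a.1 = 0) (hb : z b.1 = 0) (hc : co z c = -1) :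
    ∃ t : ℝ, 0 < t ∧ ∃ c', c' ≠ c ∧ IsV v (fun i => x i + t * z i) a b c' := by
  have hfree := isV_free h hx
  obtain ⟨h1, h2, hab, hac, hbc, hxa, hxb, hxc⟩ := hx
  have hzc : z c.1 = - x c.1 := by
    rw [← sg_mul_co z c, ← sg_mul_co x c, hc, hxc]; ring
  have key : ∀ i, |x i| = 1 → i = a.1 ∨ i = b.1 ∨ i = c.1 := by
    intro i hi
    by_contra hcon
    push Not at hcon
    have := hfree i hcon.1 hcon.2.1 hcon.2.2
    linarith
  have m1 : ∀ i, x i = 1 → z i ≤ 0 := by
    intro i hi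
    rcases key i (by rw [hi, abs_one]) with rfl | rfl | rfl
    · exact ha.le
    · exact hb.le
    · rw [hzc, hi]; norm_num
  have m2 : ∀ i, x i = -1 → 0 ≤ z i := by
    intro i hi
    rcases key i (by rw [hi]; simp) with rfl | rfl | rfl
    · exact ha.ge
    · exact hb.ge
    · rw [hzc, hi]; norm_num
  have m3 : ∃ i, z i ≠ 0 := by
    refine ⟨c.1, fun h0 => ?_⟩
    simp only [co, h0, mul_zero] at hc
    norm_num at hc
  obtain ⟨t, ht, hle, i, hi0, hi⟩ := move x z h1 m1 m2 m3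
  have hia : a.1 ≠ i := by rintro rfl; exact hi0 ha
  have hib : b.1 ≠ i := by rintro rfl; exact hi0 hb
  have hcc : ∃ c' : SL κ, c'.1 = i ∧ co (fun i => x i + t * z i) c' = 1 := by
    rcases hi with ⟨_, hi⟩ | ⟨_, hi⟩
    · exact ⟨(i, true), rfl, by simp [co, sg, hi]⟩
    · exact ⟨(i, false), rfl, by simp [co, sg, hi]⟩
  obtain ⟨c', rfl, hc'⟩ := hcc
  refine ⟨t, ht, c', ?_, hle, ?_, hab, hia, hib, ?_, ?_, hc'⟩
  · rintro rfl
    rw [co_lin, hxc, hc] at hc'
    linarith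
  · simp only [add_smul, mul_smul, Finset.sum_add_distrib, ← Finset.smul_sum, h2, hz, smul_zero,
      add_zero]
  · rw [co_lin, hxa]; simp [co, ha]
  · rw [co_lin, hxb]; simp [co, hb]

theorem tri_ex (h : Cx v) {p q a : SL κ} (ht : Tri v p q a) : ∃ a', a' ≠ a ∧ Tri v p q a' := by
  obtain ⟨x, hx⟩ := ht
  obtain ⟨z, h1, h2, h3, h4⟩ := exists_dir h hx
  obtain ⟨t, _, c', hc', hV⟩ := ray h hx z h1 h2 h3 h4
  exact ⟨c', hc', _, hV⟩

theorem isV_mid (h : Cx v) {x : κ → ℝ} {p q a : SL κ} (hx : IsV v x p q a) {y : κ → ℝ}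
    (hy : ∀ i, |y i| ≤ 1) {c : SL κ} (hcp : p.1 ≠ c.1) (hcq : q.1 ≠ c.1) (r : ℝ) (h0 : 0 ≤ r)
    (h1 : r < 1) (hw : (1 - r) * co x c + r * co y c = 1) : c = a := by
  have e1 := co_le_one hx.1 c
  have e2 := co_le_one hy c
  have e3 : co x c = 1 := by
    by_contra hne
    have hlt : co x c < 1 := lt_of_le_of_ne e1 hne
    nlinarith [mul_lt_mul_of_pos_left hlt (sub_pos.mpr h1), mul_le_mul_of_nonneg_left e2 h0]
  have e4 : c.1 = a.1 := by
    by_contra hne
    have := isV_free h hx c.1 hcp.symm hcq.symm hne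
    rw [abs_eq_one_of_co e3] at this
    exact lt_irrefl _ this
  rcases eq_or_ng e4 with h5 | h5
  · exact h5
  · rw [h5, co_ng, hx.2.2.2.2.2.2.2] at e3
    norm_num at e3

/-- An edge has exactly two ends. -/
theorem tri_uniq (h : Cx v) {p q a b c : SL κ} (ha : Tri v p q a) (hb : Tri v p q b)
    (hc : Tri v p q c) (hab : a ≠ b) : c = a ∨ c = b := by
  obtain ⟨x, hx⟩ := ha
  obtain ⟨y, hy⟩ := hb
  obtain ⟨w, hw⟩ := hc
  have hxp := hx.2.2.2.2.2.1
  have hxq := hx.2.2.2.2.2.2.1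
  have hxa := hx.2.2.2.2.2.2.2
  have hyp := hy.2.2.2.2.2.1
  have hyq := hy.2.2.2.2.2.2.1
  have hyb := hy.2.2.2.2.2.2.2
  have hwp := hw.2.2.2.2.2.1
  have hwq := hw.2.2.2.2.2.2.1
  have hwc := hw.2.2.2.2.2.2.2
  have e : ∀ (x y : κ → ℝ) (d : SL κ), co x d = 1 → co y d = 1 → x d.1 = y d.1 := by
    intro x y d h1 h2
    rw [← sg_mul_co x d, ← sg_mul_co y d, h1, h2]
  have hya : co y a ≠ 1 := by
    intro h1
    exact hab (isV_mid h hy hx.1 hx.2.2.2.1 hx.2.2.2.2.1 0 le_rfl one_pos (by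
      rw [h1]; ring))
  set s : ℝ := (1 - co w a) / (1 - co y a) with hs
  have hlt : 0 < 1 - co y a := by
    have := lt_of_le_of_ne (co_le_one hy.1 a) hya
    linarith
  have hsm : s * (1 - co y a) = 1 - co w a := div_mul_cancel₀ _ hlt.ne'
  have hs0 : 0 ≤ s := div_nonneg (by linarith [co_le_one hw.1 a]) hlt.le
  have hlin : (fun i => w i - x i - s * (y i - x i)) = 0 := by
    refine isV_inj h hx _ ?_ ?_ ?_ ?_
    · simp only [sub_smul, mul_smul, Finset.sum_sub_distrib, ← Finset.smul_sum, hx.2.1, hy.2.1,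
        hw.2.1, smul_zero, sub_zero]
    · simp only [e x y p hxp hyp, e w y p hwp hyp]; ring
    · simp only [e x y q hxq hyq, e w y q hwq hyq]; ring
    · rw [← sg_mul_co w a, ← sg_mul_co x a, ← sg_mul_co y a, hxa]
      linear_combination (sg a.2) * hsm
  have hco : ∀ d : SL κ, co w d = (1 - s) * co x d + s * co y d := by
    intro d
    have := congrFun hlin d.1
    simp only [Pi.zero_apply] at this
    simp only [co]
    linear_combination (sg d.2) * this
  rcases lt_trichotomy s 1 with h1 | h1 | h1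
  · left
    exact isV_mid h hx hy.1 hw.2.2.2.1 hw.2.2.2.2.1 s hs0 h1 (by rw [← hco, hwc])
  · right
    refine isV_mid h hy hx.1 hw.2.2.2.1 hw.2.2.2.2.1 0 le_rfl one_pos ?_
    have := hco c
    rw [hwc, h1] at this
    linarith
  · exfalso
    have hs' : (0 : ℝ) < s := by linarith
    refine hab (isV_mid h hx hw.1 hy.2.2.2.1 hy.2.2.2.2.1 s⁻¹ (inv_nonneg.mpr hs0)
      (inv_lt_one_of_one_lt₀ h1) ?_).symm
    have h2 := hco b
    rw [hyb] at h2
    rw [h2]
    field_simp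
    ring

theorem exists_tri (h : Cx v) : ∃ a b c, Tri v a b c := by
  obtain ⟨x, h1, h2, h3⟩ := bas_exists v h.unit 1 le_rfl h.long
  have hc : (Finset.univ \ fr x).card = 3 := by
    rw [Finset.card_sdiff_of_subset (Finset.subset_univ _), Finset.card_univ, h.card, h3]
    omega
  obtain ⟨i, j, k, hij, hik, hjk, he⟩ := Finset.card_eq_three.mp hc
  have key : ∀ l, l ∈ Finset.univ \ fr x → ∃ a : SL κ, a.1 = l ∧ co x a = 1 := by
    intro l hl
    simp only [Finset.mem_sdiff, Finset.mem_univ, true_and] at hl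
    rcases (not_mem_fr x h1 l).mp hl with hl | hl
    · exact ⟨(l, true), rfl, by simp [co, sg, hl]⟩
    · exact ⟨(l, false), rfl, by simp [co, sg, hl]⟩
  obtain ⟨a, rfl, ha⟩ := key i (by rw [he]; simp)
  obtain ⟨b, rfl, hb⟩ := key j (by rw [he]; simp)
  obtain ⟨c, rfl, hc'⟩ := key k (by rw [he]; simp)
  exact ⟨a, b, c, x, h1, h2, hij, hik, hjk, ha, hb, hc'⟩

end Pool.Agent.Lib.MP_1be6c9_co.M3
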