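import Pool.Agent.Lib.MP_1be6c9_co.Gap

/-!
The case of `d + 3` vectors: signed labels, vertices of the section of the cube.
-/

namespace Pool.Agent.Lib.MP_1be6c9_co.M3

open Finset Pool.Agent.Lib.MP_1be6c9_co

/-- Signed labels. -/
abbrev SL (κ : Type*) := κ × Bool

/-- The opposite signed label. -/
def ng {κ : Type*} (a : SL κ) : SL κ := (a.1, !a.2)

/-- The sign of a Boolean. -/
def sg (b : Bool) : ℝ := if b then 1 else -1

/-- The signed coordinate. -/
def co {κ : Type*} (x : κ → ℝ) (a : SL κ) : ℝ := sg a.2 * x a.1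

/-- The signed vector. -/
def uv {κ E : Type*} [NormedAddCommGroup E] [InnerProductSpace ℝ E] (v : κ → E) (a : SL κ) : E :=
  sg a.2 • v a.1

/-- `x` is a vertex of the section of the cube with tight signed labels `a`, `b`, `c`. -/
def IsV {κ E : Type*} [Fintype κ] [NormedAddCommGroup E] [InnerProductSpace ℝ E]
    (v : κ → E) (x : κ → ℝ) (a b c : SL κ) : Prop :=
  (∀ i, |x i| ≤ 1) ∧ ∑ i, x i • v i = 0 ∧ a.1 ≠ b.1 ∧ a.1 ≠ c.1 ∧ b.1 ≠ c.1 ∧
    co x a = 1 ∧ co x b = 1 ∧ co x c = 1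

/-- The signed triple `a b c` is a vertex. -/
def Tri {κ E : Type*} [Fintype κ] [NormedAddCommGroup E] [InnerProductSpace ℝ E]
    (v : κ → E) (a b c : SL κ) : Prop := ∃ x, IsV v x a b c

/-- A counterexample with `d + 3` vectors. -/
structure Cx {κ E : Type*} [Fintype κ] [NormedAddCommGroup E] [InnerProductSpace ℝ E]
    (v : κ → E) : Prop where
  unit : ∀ i, ‖v i‖ = 1
  card : Fintype.card κ = Module.finrank ℝ E + 3
  long : Long v ((Module.finrank ℝ E : ℝ) - 1)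

section basic

variable {κ : Type*}

@[simp] theorem ng_fst (a : SL κ) : (ng a).1 = a.1 := rfl
@[simp] theorem ng_ng (a : SL κ) : ng (ng a) = a := by
  rcases a with ⟨i, b⟩; simp [ng]
theorem ng_ne (a : SL κ) : ng a ≠ a := by
  rcases a with ⟨i, b⟩; simp [ng]
theorem ng_inj {a b : SL κ} (h : ng a = ng b) : a = b := by
  have := congrArg ng h; simpa using this
theorem eq_or_ng {a b : SL κ} (h : a.1 = b.1) : a = b ∨ a = ng b := by
  rcases a with ⟨i, s⟩; rcases b with ⟨j, t⟩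
  simp only at h; subst h
  cases s <;> cases t <;> simp [ng]
theorem sg_mul_self (b : Bool) : sg b * sg b = 1 := by cases b <;> simp [sg]
theorem sg_eq (b : Bool) : sg b = 1 ∨ sg b = -1 := by cases b <;> simp [sg]
theorem sg_not (b : Bool) : sg (!b) = - sg b := by cases b <;> simp [sg]
theorem co_ng (x : κ → ℝ) (a : SL κ) : co x (ng a) = - co x a := by
  simp [co, ng, sg_not]
theorem co_neg (x : κ → ℝ) (a : SL κ) : co (fun i => - x i) a = - co x a := by
  simp [co]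
theorem abs_co (x : κ → ℝ) (a : SL κ) : |co x a| = |x a.1| := by
  rcases sg_eq a.2 with h | h <;> simp [co, h]
theorem sg_mul_co (x : κ → ℝ) (a : SL κ) : sg a.2 * co x a = x a.1 := by
  simp only [co]; rw [← mul_assoc, sg_mul_self, one_mul]

end basic

section vec

variable {κ E : Type*} [NormedAddCommGroup E] [InnerProductSpace ℝ E]

theorem uv_ng (v : κ → E) (a : SL κ) : uv v (ng a) = - uv v a := by
  simp [uv, ng, sg_not]
theorem norm_uv {v : κ → E} (hv : ∀ i, ‖v i‖ = 1) (a : SL κ) : ‖uv v a‖ = 1 := by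
  rcases sg_eq a.2 with h | h <;> simp [uv, h, hv]
theorem co_smul_uv (v : κ → E) (x : κ → ℝ) (a : SL κ) : co x a • uv v a = x a.1 • v a.1 := by
  simp only [co, uv, smul_smul]
  congr 1
  have := sg_mul_self a.2
  linear_combination (x a.1) * this

end vec

section tri

variable {κ E : Type*} [Fintype κ] [NormedAddCommGroup E] [InnerProductSpace ℝ E] {v : κ → E}

theorem IsV.sym12 {x : κ → ℝ} {a b c : SL κ} (h : IsV v x a b c) : IsV v x b a c :=
  ⟨h.1, h.2.1, h.2.2.1.symm, h.2.2.2.2.1, h.2.2.2.1, h.2.2.2.2.2.2.1, h.2.2.2.2.2.1,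
    h.2.2.2.2.2.2.2⟩

theorem IsV.sym23 {x : κ → ℝ} {a b c : SL κ} (h : IsV v x a b c) : IsV v x a c b :=
  ⟨h.1, h.2.1, h.2.2.2.1, h.2.2.1, h.2.2.2.2.1.symm, h.2.2.2.2.2.1, h.2.2.2.2.2.2.2,
    h.2.2.2.2.2.2.1⟩

theorem IsV.neg {x : κ → ℝ} {a b c : SL κ} (h : IsV v x a b c) :
    IsV v (fun i => - x i) (ng a) (ng b) (ng c) := by
  obtain ⟨h1, h2, h3, h4, h5, h6, h7, h8⟩ := h
  refine ⟨fun i => by simpa using h1 i, ?_, h3, h4, h5, ?_, ?_, ?_⟩
  · simp only [neg_smul, Finset.sum_neg_distrib, h2, neg_zero]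
  · rw [co_neg, co_ng, neg_neg, h6]
  · rw [co_neg, co_ng, neg_neg, h7]
  · rw [co_neg, co_ng, neg_neg, h8]

theorem Tri.sym12 {a b c : SL κ} (h : Tri v a b c) : Tri v b a c := by
  obtain ⟨x, hx⟩ := h; exact ⟨x, hx.sym12⟩
theorem Tri.sym23 {a b c : SL κ} (h : Tri v a b c) : Tri v a c b := by
  obtain ⟨x, hx⟩ := h; exact ⟨x, hx.sym23⟩
theorem Tri.neg {a b c : SL κ} (h : Tri v a b c) : Tri v (ng a) (ng b) (ng c) := by
  obtain ⟨x, hx⟩ := h; exact ⟨_, hx.neg⟩
theorem Tri.lab {a b c : SL κ} (h : Tri v a b c) : a.1 ≠ b.1 := by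
  obtain ⟨x, hx⟩ := h; exact hx.2.2.1

end tri

end Pool.Agent.Lib.MP_1be6c9_co.M3
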