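import Pool.Agent.Lib.MP_1be6c9_co.M3.Corner

/-!
Four vertices cannot have private labels.
-/

namespace Pool.Agent.Lib.MP_1be6c9_co.M3

open Finset Pool.Agent.Lib.MP_1be6c9_co

variable {κ E : Type*} [Fintype κ] [DecidableEq κ] [NormedAddCommGroup E] [InnerProductSpace ℝ E]
  [FiniteDimensional ℝ E] {v : κ → E}

/-- Private labels: four vertices cannot have private labels. -/
theorem private4 (h : Cx v) (A B C : Fin 4 → SL κ) (hT : ∀ i, Tri v (A i) (B i) (C i))
    (hp : ∀ i j, i ≠ j → (A i).1 ≠ (A j).1 ∧ (A i).1 ≠ (B j).1 ∧ (A i).1 ≠ (C j).1) : False := by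
  classical
  choose x hx using hT
  have key : ∀ j p q r : Fin 4, p ≠ j → q ≠ j → r ≠ j → p ≠ q → p ≠ r → q ≠ r →
      |x j (A p).1| + |x j (A q).1| + |x j (A r).1| < 1 := by
    intro j p q r hpj hqj hrj hpq hpr hqr
    exact corner h (hx j) (A p).1 (A q).1 (A r).1 (hp p q hpq).1 (hp p r hpr).1 (hp q r hqr).1
      (hp p j hpj) (hp q j hqj) (hp r j hrj)
  have hdiag : ∀ j, |x j (A j).1| = 1 := by
    intro j
    rw [← abs_co, (hx j).2.2.2.2.2.1, abs_one]
  let M : Matrix (Fin 4) (Fin 4) ℝ := fun j i => x j (A i).1
  have hdet : M.det ≠ 0 := by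
    apply det_ne_zero_of_sum_row_lt_diag
    intro j
    have h1 : ‖M j j‖ = 1 := hdiag j
    rw [h1]
    have h2 : ∀ i, ‖M j i‖ = |x j (A i).1| := fun i => rfl
    simp only [h2]
    fin_cases j
    · have e : (Finset.univ.erase (0 : Fin 4)) = {1, 2, 3} := by decide
      have := key 0 1 2 3 (by decide) (by decide) (by decide) (by decide) (by decide) (by decide)
      show ∑ i ∈ Finset.univ.erase (0 : Fin 4), |x 0 (A i).1| < 1
      rw [e, Finset.sum_insert (by decide), Finset.sum_insert (by decide), Finset.sum_singleton]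
      linarith
    · have e : (Finset.univ.erase (1 : Fin 4)) = {0, 2, 3} := by decide
      have := key 1 0 2 3 (by decide) (by decide) (by decide) (by decide) (by decide) (by decide)
      show ∑ i ∈ Finset.univ.erase (1 : Fin 4), |x 1 (A i).1| < 1
      rw [e, Finset.sum_insert (by decide), Finset.sum_insert (by decide), Finset.sum_singleton]
      linarith
    · have e : (Finset.univ.erase (2 : Fin 4)) = {0, 1, 3} := by decide
      have := key 2 0 1 3 (by decide) (by decide) (by decide) (by decide) (by decide) (by decide)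
      show ∑ i ∈ Finset.univ.erase (2 : Fin 4), |x 2 (A i).1| < 1
      rw [e, Finset.sum_insert (by decide), Finset.sum_insert (by decide), Finset.sum_singleton]
      linarith
    · have e : (Finset.univ.erase (3 : Fin 4)) = {0, 1, 2} := by decide
      have := key 3 0 1 2 (by decide) (by decide) (by decide) (by decide) (by decide) (by decide)
      show ∑ i ∈ Finset.univ.erase (3 : Fin 4), |x 3 (A i).1| < 1
      rw [e, Finset.sum_insert (by decide), Finset.sum_insert (by decide), Finset.sum_singleton]
      linarith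
  -- a nontrivial combination vanishing at the three tight labels of the first vertex
  let N : Matrix (Fin 4) (Fin 4) ℝ :=
    fun j l => if l = 0 then x j (A 0).1 else if l = 1 then x j (B 0).1 else
      if l = 2 then x j (C 0).1 else 0
  have hN : N.det = 0 := Matrix.det_eq_zero_of_column_eq_zero 3 (fun i => by simp [N])
  obtain ⟨t, ht0, ht⟩ := Matrix.exists_vecMul_eq_zero_iff.mpr hN
  have hcol : ∀ l, ∑ j, t j * N j l = 0 := fun l => congrFun ht l
  have hz : (fun i => ∑ j, t j * x j i) = (0 : κ → ℝ) := by
    apply isV_inj h (hx 0)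
    · have : ∀ i, (∑ j, t j * x j i) • v i = ∑ j, t j • (x j i • v i) := by
        intro i
        rw [Finset.sum_smul]
        exact Finset.sum_congr rfl fun j _ => by rw [smul_smul]
      simp only [this]
      rw [Finset.sum_comm]
      apply Finset.sum_eq_zero
      intro j _
      rw [← Finset.smul_sum, (hx j).2.1, smul_zero]
    · simpa [N] using hcol 0
    · simpa [N] using hcol 1
    · simpa [N] using hcol 2
  apply ht0
  apply Matrix.eq_zero_of_vecMul_eq_zero hdet
  funext i
  exact congrFun hz (A i).1

end Pool.Agent.Lib.MP_1be6c9_co.M3
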