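import Pool.Agent.Lib.MP_1be6c9_co.M3.Li
import Pool.Agent.Lib.MP_1be6c9_co.M3.Conn
import Pool.Agent.Lib.MP_1be6c9_co.M3.Comb
import Pool.Agent.Lib.MP_1be6c9_co.M3.Priv

/-!
Assembly: no counterexample with `d + 3` vectors.
-/

namespace Pool.Agent.Lib.MP_1be6c9_co.M3

open Finset Pool.Agent.Lib.MP_1be6c9_co

variable {κ E : Type*} [Fintype κ] [DecidableEq κ] [NormedAddCommGroup E] [InnerProductSpace ℝ E]
  [FiniteDimensional ℝ E] {v : κ → E}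

theorem cx_ts (h : Cx v) : TS (Tri v) where
  sym12 := Tri.sym12
  sym23 := Tri.sym23
  neg := Tri.neg
  lab := Tri.lab
  ex := tri_ex h
  uniq := tri_uniq h
  noflip := noflip h
  noanti := noanti h
  priv := private4 h
  conn := fun S s12 s23 hcl _ _ _ h0 hS _ _ _ h1 => conn h S s12 s23 hcl h0 hS h1

/-- `li_law` in terms of inner products. -/
theorem li_inner (h : Cx v) {a b c : SL κ} (ht : Tri v a b c) (e₁ e₂ e₃ : SL κ)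
    (h12 : e₁.1 ≠ e₂.1) (h13 : e₁.1 ≠ e₃.1) (h23 : e₂.1 ≠ e₃.1)
    (h1 : e₁.1 ≠ a.1 ∧ e₁.1 ≠ b.1 ∧ e₁.1 ≠ c.1) (h2 : e₂.1 ≠ a.1 ∧ e₂.1 ≠ b.1 ∧ e₂.1 ≠ c.1)
    (h3 : e₃.1 ≠ a.1 ∧ e₃.1 ≠ b.1 ∧ e₃.1 ≠ c.1) :
    inner ℝ (uv v e₁) (uv v e₂) + inner ℝ (uv v e₁) (uv v e₃) + inner ℝ (uv v e₂) (uv v e₃)
      + (inner ℝ (uv v a) (uv v b) + inner ℝ (uv v a) (uv v c) + inner ℝ (uv v b) (uv v c)) < 0 := by
  obtain ⟨x, hx⟩ := ht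
  have hl := li_law h hx e₁ e₂ e₃ h12 h13 h23 h1 h2 h3
  rw [norm_add_sq_real, norm_add_sq_real, inner_add_left, norm_uv h.unit, norm_uv h.unit,
    norm_uv h.unit] at hl
  linarith

/-- The sum of the ten inequalities. -/
theorem ico_false (h : Cx v) {p q₁ q₂ q₃ q₄ q₅ : SL κ} (hI : Ico (Tri v) p q₁ q₂ q₃ q₄ q₅) :
    False := by
  obtain ⟨⟨p1, p2, p3, p4, p5⟩, ⟨a12, a13, a14, a15⟩, ⟨a23, a24, a25⟩, ⟨a34, a35⟩, a45,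
    ⟨t12, t23, t34, t45, t51⟩, ⟨s12, s23, s34, s45, s51⟩⟩ := hI
  have i1 := li_inner h t12 q₃ (ng q₄) q₅ a34 a35 a45 ⟨p3.symm, a13.symm, a23.symm⟩
    ⟨p4.symm, a14.symm, a24.symm⟩ ⟨p5.symm, a15.symm, a25.symm⟩
  have i2 := li_inner h t23 q₄ (ng q₅) q₁ a45 a14.symm a15.symm ⟨p4.symm, a24.symm, a34.symm⟩
    ⟨p5.symm, a25.symm, a35.symm⟩ ⟨p1.symm, a12, a13⟩
  have i3 := li_inner h t34 q₅ (ng q₁) q₂ a15.symm a25.symm a12 ⟨p5.symm, a35.symm, a45.symm⟩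
    ⟨p1.symm, a13, a14⟩ ⟨p2.symm, a23, a24⟩
  have i4 := li_inner h t45 q₁ (ng q₂) q₃ a12 a13 a23 ⟨p1.symm, a14, a15⟩
    ⟨p2.symm, a24, a25⟩ ⟨p3.symm, a34, a35⟩
  have i5 := li_inner h t51 q₂ (ng q₃) q₄ a23 a24 a34 ⟨p2.symm, a25, a12.symm⟩
    ⟨p3.symm, a35, a13.symm⟩ ⟨p4.symm, a45, a14.symm⟩
  have j1 := li_inner h s12 (ng p) q₃ q₅ p3 p5 a35 ⟨p1, p2, p4⟩
    ⟨a13.symm, a23.symm, a34⟩ ⟨a15.symm, a25.symm, a45.symm⟩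
  have j2 := li_inner h s23 (ng p) q₄ q₁ p4 p1 a14.symm ⟨p2, p3, p5⟩
    ⟨a24.symm, a34.symm, a45⟩ ⟨a12, a13, a15⟩
  have j3 := li_inner h s34 (ng p) q₅ q₂ p5 p2 a25.symm ⟨p3, p4, p1⟩
    ⟨a35.symm, a45.symm, a15.symm⟩ ⟨a23, a24, a12.symm⟩
  have j4 := li_inner h s45 (ng p) q₁ q₃ p1 p3 a13 ⟨p4, p5, p2⟩
    ⟨a14, a15, a12⟩ ⟨a34, a35, a23.symm⟩
  have j5 := li_inner h s51 (ng p) q₂ q₄ p2 p4 a24 ⟨p5, p1, p3⟩
    ⟨a25, a12.symm, a23⟩ ⟨a45, a14.symm, a34.symm⟩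
  simp only [uv_ng, inner_neg_left, inner_neg_right] at i1 i2 i3 i4 i5 j1 j2 j3 j4 j5
  have c12 := real_inner_comm (uv v q₁) (uv v q₂)
  have c13 := real_inner_comm (uv v q₁) (uv v q₃)
  have c14 := real_inner_comm (uv v q₁) (uv v q₄)
  have c15 := real_inner_comm (uv v q₁) (uv v q₅)
  have c23 := real_inner_comm (uv v q₂) (uv v q₃)
  have c24 := real_inner_comm (uv v q₂) (uv v q₄)
  have c25 := real_inner_comm (uv v q₂) (uv v q₅)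
  have c34 := real_inner_comm (uv v q₃) (uv v q₄)
  have c35 := real_inner_comm (uv v q₃) (uv v q₅)
  have c45 := real_inner_comm (uv v q₄) (uv v q₅)
  linarith

theorem no_cx (h : Cx v) : False := by
  obtain ⟨p, q₁, q₂, q₃, q₄, q₅, hI⟩ := exists_ico (cx_ts h) (exists_tri h)
  exact ico_false h hI

/-- `d + 3` unit vectors in dimension `d`. -/
theorem main3 (hv : ∀ i, ‖v i‖ = 1) (hcard : Fintype.card κ = Module.finrank ℝ E + 3) :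
    ∃ η : κ → ℝ, (∀ i, η i = 1 ∨ η i = -1) ∧
      ‖∑ i, η i • v i‖ ^ 2 ≤ (Module.finrank ℝ E : ℝ) - 1 := by
  by_contra hcon
  push Not at hcon
  exact no_cx ⟨hv, hcard, fun η hη => hcon η hη⟩

end Pool.Agent.Lib.MP_1be6c9_co.M3
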