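import Pool.Agent.Lib.MP_1be6c9_co.M3.Final

/-!
Vectors on at most `d + 3` lines.
-/

namespace Pool.Agent.Lib.MP_1be6c9_co.M3

open Finset Pool.Agent.Lib.MP_1be6c9_co

/-- A shortest signed sum exists. -/
private theorem red_exists_min {κ E : Type*} [NormedAddCommGroup E] [InnerProductSpace ℝ E]
    [Fintype κ] (v : κ → E) :
    ∃ η : κ → ℝ, (∀ i, η i = 1 ∨ η i = -1) ∧ ∀ ε : κ → ℝ, (∀ i, ε i = 1 ∨ ε i = -1) →
      ‖∑ i, η i • v i‖ ^ 2 ≤ ‖∑ i, ε i • v i‖ ^ 2 := by
  classical
  have hne : (Fintype.piFinset (fun _ : κ => ({1, -1} : Finset ℝ))).Nonempty :=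
    ⟨fun _ => 1, by simp⟩
  obtain ⟨η, hη, hmin⟩ := Finset.exists_min_image _ (fun η : κ → ℝ => ‖∑ i, η i • v i‖ ^ 2) hne
  refine ⟨η, ?_, ?_⟩
  · intro i
    have := (Fintype.mem_piFinset.mp hη) i
    simpa using this
  · intro ε hε
    exact hmin ε (Fintype.mem_piFinset.mpr fun i => by simpa using hε i)

private theorem red_of_relation {κ E : Type*} [NormedAddCommGroup E] [InnerProductSpace ℝ E]
    [Fintype κ] (v : κ → E) (hv : ∀ i, ‖v i‖ = 1)
    (x : κ → ℝ) (hx : ∃ i, x i ≠ 0) (h0 : ∑ i, x i • v i = 0) :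
    ∃ η : κ → ℝ, (∀ i, η i = 1 ∨ η i = -1) ∧
      ‖∑ i, η i • v i‖ ^ 2 ≤ (Fintype.card κ : ℝ) - 2 := by
  classical
  obtain ⟨η, hη, hmin⟩ := red_exists_min v
  refine ⟨η, hη, ?_⟩
  by_contra hcon
  push Not at hcon
  obtain ⟨ε, hε, hle⟩ := kernel_aux v x (‖∑ i, η i • v i‖ ^ 2) Finset.univ 0 0
  have hX : 0 < ∑ i, x i ^ 2 := by
    obtain ⟨i, hi⟩ := hx
    exact Finset.sum_pos' (fun _ _ => sq_nonneg _) ⟨i, Finset.mem_univ _, by positivity⟩
  have h3 : ∑ i, ‖v i‖ ^ 2 = (Fintype.card κ : ℝ) := by simp [hv]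
  have h4 : ∑ i, x i ^ 2 * ‖v i‖ ^ 2 = ∑ i, x i ^ 2 := by
    refine Finset.sum_congr rfl fun i _ => ?_
    rw [hv i]; ring
  rw [h0, h3, h4] at hle
  simp only [zero_add, norm_zero, mul_zero, zero_mul] at hle
  have h5 := hmin ε hε
  have h6 : 0 ≤ (∑ i, ε i * x i) ^ 2 * (‖∑ i, ε i • v i‖ ^ 2 - ‖∑ i, η i • v i‖ ^ 2) :=
    mul_nonneg (sq_nonneg _) (by linarith)
  nlinarith

/-- At most `d + 1` or exactly `d + 3` vectors (cases `n ≤ d - 1`, `n = d + 1`, `n = d + 3`). -/
theorem few (d : ℕ) {κ : Type*} [Fintype κ] [DecidableEq κ] (hd : 1 ≤ d)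
    (hn : Fintype.card κ ≤ d + 3)
    (hpar : Fintype.card κ % 2 ≠ d % 2) (v : κ → EuclideanSpace ℝ (Fin d))
    (hv : ∀ i, ‖v i‖ = 1) :
    ∃ η : κ → ℝ, (∀ i, η i = 1 ∨ η i = -1) ∧ ‖∑ i, η i • v i‖ ^ 2 ≤ (d : ℝ) - 1 := by
  have hfr : Module.finrank ℝ (EuclideanSpace ℝ (Fin d)) = d := by simp
  rcases Nat.lt_or_ge (Fintype.card κ) d with h | h
  · obtain ⟨η, hη, hle⟩ := rounding v (fun _ => 0) (by simp)
    refine ⟨η, hη, ?_⟩
    have h1 : (Fintype.card κ : ℝ) + 1 ≤ d := by exact_mod_cast h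
    simp [hv] at hle
    linarith
  · have h3 : Fintype.card κ = d + 1 ∨ Fintype.card κ = d + 3 := by omega
    rcases h3 with h3 | h3
    · have hdep : ¬ LinearIndependent ℝ v := by
        intro hcon
        have := hcon.fintype_card_le_finrank
        rw [hfr, h3] at this
        omega
      rw [Fintype.not_linearIndependent_iff] at hdep
      obtain ⟨x, h0, hx⟩ := hdep
      obtain ⟨η, hη, hle⟩ := red_of_relation v hv x hx h0
      refine ⟨η, hη, ?_⟩
      rw [h3] at hle
      push_cast at hle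
      linarith
    · obtain ⟨η, hη, hle⟩ := main3 (κ := κ) (E := EuclideanSpace ℝ (Fin d)) hv (by rw [hfr, h3])
      rw [hfr] at hle
      exact ⟨η, hη, hle⟩

/-- Any number of vectors on at most `d + 3` lines: pairs on a common line are removed. -/
theorem lines (d : ℕ) (hd : 1 ≤ d) (L : Fin (d + 3) → EuclideanSpace ℝ (Fin d)) :
    ∀ (N : ℕ) (κ : Type) [Fintype κ] [DecidableEq κ], Fintype.card κ = N →
      Fintype.card κ % 2 ≠ d % 2 →
      ∀ (v : κ → EuclideanSpace ℝ (Fin d)), (∀ i, ‖v i‖ = 1) → (∀ i, ∃ j, v i = L j ∨ v i = - L j) →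
      ∃ η : κ → ℝ, (∀ i, η i = 1 ∨ η i = -1) ∧ ‖∑ i, η i • v i‖ ^ 2 ≤ (d : ℝ) - 1 := by
  intro N
  induction N using Nat.strong_induction_on with
  | _ N ih =>
    intro κ _ _ hN hpar v hv hL
    by_cases hpair : ∃ i j, i ≠ j ∧ (v j = v i ∨ v j = - v i)
    · obtain ⟨i, j, hij, hvij⟩ := hpair
      obtain ⟨s, hs, hvs⟩ : ∃ s : ℝ, (s = 1 ∨ s = -1) ∧ v j = s • v i := by
        rcases hvij with h | h
        · exact ⟨1, Or.inl rfl, by rw [one_smul]; exact h⟩
        · exact ⟨-1, Or.inr rfl, by rw [neg_one_smul]; exact h⟩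
      have hsub : Finset.univ.filter (fun k : κ => k ≠ i ∧ k ≠ j)
          = (Finset.univ.erase i).erase j := by
        ext k
        simp only [Finset.mem_filter, Finset.mem_univ, true_and, Finset.mem_erase, and_true]
        tauto
      have hcard2 : Fintype.card {k : κ // k ≠ i ∧ k ≠ j} + 2 = Fintype.card κ := by
        rw [Fintype.card_subtype, hsub,
          Finset.card_erase_of_mem (Finset.mem_erase.mpr ⟨hij.symm, Finset.mem_univ _⟩),
          Finset.card_erase_of_mem (Finset.mem_univ _), Finset.card_univ]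
        have h2 : 1 < Fintype.card κ := Fintype.one_lt_card_iff.mpr ⟨i, j, hij⟩
        omega
      obtain ⟨η, hη, hle⟩ := ih (Fintype.card {k : κ // k ≠ i ∧ k ≠ j}) (by omega)
        {k : κ // k ≠ i ∧ k ≠ j} rfl (by omega) (fun k => v k.1) (fun k => hv k.1)
        (fun k => hL k.1)
      refine ⟨fun k => if hk : k ≠ i ∧ k ≠ j then η ⟨k, hk⟩ else if k = i then 1 else -s, ?_, ?_⟩
      · intro k
        show (if hk : k ≠ i ∧ k ≠ j then η ⟨k, hk⟩ else if k = i then (1 : ℝ) else -s) = 1 ∨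
          (if hk : k ≠ i ∧ k ≠ j then η ⟨k, hk⟩ else if k = i then (1 : ℝ) else -s) = -1
        by_cases hk : k ≠ i ∧ k ≠ j
        · rw [dif_pos hk]; exact hη _
        · rw [dif_neg hk]
          by_cases hki : k = i
          · rw [if_pos hki]; exact Or.inl rfl
          · rw [if_neg hki]
            rcases hs with h | h <;> simp [h]
      · have hsum : ∑ k, (if hk : k ≠ i ∧ k ≠ j then η ⟨k, hk⟩ else if k = i then (1 : ℝ) else -s)
            • v k = ∑ k : {k : κ // k ≠ i ∧ k ≠ j}, η k • v k.1 := by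
          rw [← Finset.add_sum_erase _ _ (Finset.mem_univ i),
            ← Finset.add_sum_erase _ _ (Finset.mem_erase.mpr ⟨hij.symm, Finset.mem_univ j⟩)]
          have e1 : (if hk : i ≠ i ∧ i ≠ j then η ⟨i, hk⟩ else if i = i then (1 : ℝ) else -s) = 1 := by
            rw [dif_neg (fun h => h.1 rfl), if_pos rfl]
          have e2 : (if hk : j ≠ i ∧ j ≠ j then η ⟨j, hk⟩ else if j = i then (1 : ℝ) else -s) = -s := by
            rw [dif_neg (fun h => h.2 rfl), if_neg hij.symm]
          rw [e1, e2, hvs, ← hsub]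
          have e3 : (1 : ℝ) • v i + ((-s) • s • v i + ∑ k ∈ Finset.univ.filter
              (fun k : κ => k ≠ i ∧ k ≠ j), (if hk : k ≠ i ∧ k ≠ j then η ⟨k, hk⟩ else
                if k = i then (1 : ℝ) else -s) • v k)
              = ∑ k ∈ Finset.univ.filter (fun k : κ => k ≠ i ∧ k ≠ j),
                (if hk : k ≠ i ∧ k ≠ j then η ⟨k, hk⟩ else if k = i then (1 : ℝ) else -s) • v k := by
            have hss : (-s) * s = -1 := by rcases hs with h | h <;> rw [h] <;> norm_num
            rw [smul_smul, hss, one_smul, neg_one_smul]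
            abel
          rw [e3, Finset.sum_subtype (Finset.univ.filter (fun k : κ => k ≠ i ∧ k ≠ j))
            (p := fun k => k ≠ i ∧ k ≠ j) (by intro k; simp)]
          refine Finset.sum_congr rfl fun k _ => ?_
          rw [dif_pos k.2]
        rw [hsum]
        exact hle
    · push Not at hpair
      choose f hf using hL
      have hinj : Function.Injective f := by
        intro i j hfij
        by_contra hne
        have h1 := hpair i j hne
        have h2 := hf i
        have h3 := hf j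
        rw [← hfij] at h3
        rcases h2 with h2 | h2 <;> rcases h3 with h3 | h3
        · exact h1.1 (by rw [h2, h3])
        · exact h1.2 (by rw [h2, h3])
        · exact h1.2 (by rw [h2, h3, neg_neg])
        · exact h1.1 (by rw [h2, h3])
      have hcard : Fintype.card κ ≤ d + 3 := by
        have := Fintype.card_le_of_injective f hinj
        rwa [Fintype.card_fin] at this
      exact few d hd hcard hpar v hv

end Pool.Agent.Lib.MP_1be6c9_co.M3
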