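import Pool.Agent.Lib.MP_1be6c9_co.M3.GeoA

/-!
The sum of the three tight vectors has norm less than one (weight `(1 + ∑ x ε)²`, `kernel_aux`).
-/

namespace Pool.Agent.Lib.MP_1be6c9_co.M3

open Finset Pool.Agent.Lib.MP_1be6c9_co

variable {κ E : Type*} [Fintype κ] [DecidableEq κ] [NormedAddCommGroup E] [InnerProductSpace ℝ E]
  [FiniteDimensional ℝ E] {v : κ → E}

omit [DecidableEq κ] [FiniteDimensional ℝ E] in
private theorem long_strict {R : ℝ} (h : Long v R) : ∃ R', R < R' ∧ Long v R' := by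
  classical
  let s : (κ → Bool) → (κ → ℝ) := fun b i => if b i then 1 else -1
  obtain ⟨b0, -, hb0⟩ := Finset.exists_min_image (Finset.univ : Finset (κ → Bool))
    (fun b => ‖∑ i, s b i • v i‖ ^ 2) ⟨fun _ => true, Finset.mem_univ _⟩
  have hs : ∀ b : κ → Bool, ∀ i, s b i = 1 ∨ s b i = -1 := by
    intro b i
    by_cases hb : b i = true
    · left; simp [s, hb]
    · right; simp [s, hb]
  have h0 : R < ‖∑ i, s b0 i • v i‖ ^ 2 := h _ (hs b0)
  refine ⟨(R + ‖∑ i, s b0 i • v i‖ ^ 2) / 2, by linarith, ?_⟩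
  intro η hη
  have h1 : s (fun i => decide (η i = 1)) = η := by
    funext i
    rcases hη i with h2 | h2
    · simp [s, h2]
    · have h3 : η i ≠ 1 := by rw [h2]; norm_num
      simp only [s, decide_eq_true_eq]
      rw [if_neg h3, h2]
  have h2 := hb0 (fun i => decide (η i = 1)) (Finset.mem_univ _)
  rw [h1] at h2
  linarith

omit [Fintype κ] [DecidableEq κ] in
private theorem abs_tight {x : κ → ℝ} {a : SL κ} (h : co x a = 1) : |x a.1| = 1 := by
  rw [← abs_co, h, abs_one]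

private theorem fr_vertex (h : Cx v) {x : κ → ℝ} {a b c : SL κ} (hx : IsV v x a b c) :
    fr x = ({a.1, b.1, c.1} : Finset κ)ᶜ := by
  ext i
  rw [mem_fr, Finset.mem_compl, Finset.mem_insert, Finset.mem_insert, Finset.mem_singleton]
  constructor
  · rintro hi (rfl | rfl | rfl)
    · rw [abs_tight hx.2.2.2.2.2.1] at hi; exact lt_irrefl _ hi
    · rw [abs_tight hx.2.2.2.2.2.2.1] at hi; exact lt_irrefl _ hi
    · rw [abs_tight hx.2.2.2.2.2.2.2] at hi; exact lt_irrefl _ hi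
  · intro hi
    push Not at hi
    exact isV_free h hx i hi.1 hi.2.1 hi.2.2

theorem isV_short (h : Cx v) {x : κ → ℝ} {a b c : SL κ} (hx : IsV v x a b c) :
    ‖uv v a + uv v b + uv v c‖ < 1 := by
  have hfr := fr_vertex h hx
  obtain ⟨hx1, hx0, hab, hac, hbc, ha, hb, hc⟩ := hx
  have hcard3 : ({a.1, b.1, c.1} : Finset κ).card = 3 := Finset.card_eq_three.2
    ⟨a.1, b.1, c.1, hab, hac, hbc, rfl⟩
  have hcard : (fr x).card = Module.finrank ℝ E := by
    rw [hfr, Finset.card_compl, hcard3, h.card]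
    omega
  have hB : Bas v x := ⟨hx1, hx0, hcard⟩
  -- the sum of the tight vectors
  have hcc : cc v x = uv v a + uv v b + uv v c := by
    have h1 := sum_fr v x
    rw [hx0] at h1
    have h2 : ∑ i ∈ (fr x)ᶜ, x i • v i = uv v a + uv v b + uv v c := by
      rw [hfr, compl_compl, Finset.sum_insert (by simp [hab, hac]),
        Finset.sum_insert (by simp [hbc]), Finset.sum_singleton, ← co_smul_uv v x a,
        ← co_smul_uv v x b, ← co_smul_uv v x c, ha, hb, hc, one_smul, one_smul, one_smul]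
      abel
    rw [cc, ← h2]
    exact neg_eq_of_add_eq_zero_right h1.symm
  obtain ⟨R', hR', hL⟩ := long_strict h.long
  obtain ⟨δ, hδ⟩ : ∃ δ : ℝ, δ = (Module.finrank ℝ E : ℝ) - R' := ⟨_, rfl⟩
  have hL' : Long v ((Module.finrank ℝ E : ℝ) - δ) := by
    rw [hδ, sub_sub_cancel]; exact hL
  have hδ1 : δ < 1 := by linarith
  have hA := estA v h.unit δ hL' x hB
  rw [hcc] at hA
  have hr := long_round v h.unit _ h.long x hx1 hx0
  have hq : ∑ i ∈ fr x, (1 - x i ^ 2) = (Module.finrank ℝ E : ℝ) - ∑ i ∈ fr x, x i ^ 2 := by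
    rw [Finset.sum_sub_distrib, Finset.sum_const, hcard, nsmul_eq_mul, mul_one]
  rw [hq] at hr
  have hq0 : 0 ≤ ∑ i ∈ fr x, x i ^ 2 := Finset.sum_nonneg fun i _ => sq_nonneg _
  set q : ℝ := ∑ i ∈ fr x, x i ^ 2 with hqd
  set r : ℝ := ‖uv v a + uv v b + uv v c‖ with hrd
  have hr0 : 0 ≤ r := norm_nonneg _
  by_contra hcon
  push Not at hcon
  have h1 : 0 ≤ (1 - q) * (r ^ 2 - 1) := mul_nonneg (by linarith) (by nlinarith)
  nlinarith

theorem tri_short (h : Cx v) {a b c : SL κ} (ht : Tri v a b c) :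
    ‖uv v a + uv v b + uv v c‖ < 1 := by
  obtain ⟨x, hx⟩ := ht; exact isV_short h hx

omit [Fintype κ] [DecidableEq κ] [FiniteDimensional ℝ E] in
private theorem par_aux {y u : E} (hu : 1 ≤ ‖u‖ ∨ 1 ≤ ‖y‖) (h1 : ‖y + u‖ < 1) (h2 : ‖y - u‖ < 1) :
    False := by
  have h3 := parallelogram_law_with_norm ℝ y u
  have h4 : ‖y + u‖ * ‖y + u‖ < 1 := by nlinarith [norm_nonneg (y + u)]
  have h5 : ‖y - u‖ * ‖y - u‖ < 1 := by nlinarith [norm_nonneg (y - u)]
  rcases hu with hu | hu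
  · nlinarith [mul_self_nonneg ‖y‖]
  · nlinarith [mul_self_nonneg ‖u‖]

theorem noflip (h : Cx v) {p q a : SL κ} (ht : Tri v p q a) : ¬ Tri v p q (ng a) := by
  intro h2
  have h3 := tri_short h ht
  have h4 := tri_short h h2
  rw [uv_ng, ← sub_eq_add_neg] at h4
  exact par_aux (Or.inl (norm_uv h.unit a).ge) h3 h4

theorem noanti (h : Cx v) {p q a : SL κ} (ht : Tri v p q a) : ¬ Tri v p (ng q) (ng a) := by
  intro h2
  have h3 := tri_short h ht
  have h4 := tri_short h h2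
  rw [uv_ng, uv_ng] at h4
  rw [add_assoc] at h3
  have h5 : uv v p + -uv v q + -uv v a = uv v p - (uv v q + uv v a) := by abel
  rw [h5] at h4
  exact par_aux (Or.inr (norm_uv h.unit p).ge) h3 h4

end Pool.Agent.Lib.MP_1be6c9_co.M3
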